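import Mathlib
import Pool.Agent.Helper626.Rand.Defs

set_option autoImplicit false

namespace Q217.CO

/-- A prefix-free machine: a partial computable function from strings to strings whose domain
is prefix-free. -/
def PrefixFreeMachine (M : List Bool →. List Bool) : Prop :=
  Partrec M ∧ ∀ p q : List Bool, (M p).Dom → (M q).Dom → p <+: q → p = q

/-- `U` is a prefix-free machine that is universal by adjunction: there are an enumeration
`M 0, M 1, ...` of all prefix-free machines and a computable prefix-free family of codes `σ e`
with `U (σ e ++ p) = M e p` for all `e` and `p`. -/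
def UniversalByAdjunction (U : List Bool →. List Bool) : Prop :=
  PrefixFreeMachine U ∧ ∃ (M : ℕ → List Bool →. List Bool) (σ : ℕ → List Bool),
    (∀ e, PrefixFreeMachine (M e)) ∧ (∀ N, PrefixFreeMachine N → ∃ e, M e = N) ∧
    Computable σ ∧ (∀ e e', σ e <+: σ e' → σ e = σ e') ∧ ∀ e p, U (σ e ++ p) = M e p

open Classical in
/-- The halting probability restricted to the outputs in `X`. -/
noncomputable def Omega (U : List Bool →. List Bool) (X : Set (List Bool)) : ℝ :=
  ∑' p : List Bool, if ∃ x ∈ X, x ∈ U p then (1 / 2 : ℝ) ^ p.length else 0

end Q217.CO
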