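import Mathlib

set_option autoImplicit false

/-! Primitive recursive enumerations of r.e. sets and of graphs of partial recursive functions. -/

namespace Q217.CO

open Nat.Partrec Encodable

/-- A primitive recursive enumeration of an r.e. set. -/
theorem enum_re {α : Type} [Primcodable α] {p : α → Prop} (hp : REPred p) :
    ∃ v : ℕ → Option α, Primrec v ∧ ∀ a, p a ↔ ∃ n, v n = some a := by
  obtain ⟨c, hc⟩ := Code.exists_code.1 hp
  have hc' : ∀ n, c.eval n = Part.bind (decode (α := α) n) fun a =>
      (Part.assert (p a) fun _ => Part.some ()).map encode := fun n => by rw [hc]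
  let v : ℕ → Option α := fun n =>
    (Code.evaln n.unpair.1 c n.unpair.2).bind fun _ => decode n.unpair.2
  have hv : ∀ n a, v n = some a ↔ (∃ z, Code.evaln n.unpair.1 c n.unpair.2 = some z) ∧
      decode n.unpair.2 = some a := by
    intro n a
    show ((Code.evaln n.unpair.1 c n.unpair.2).bind fun _ => decode n.unpair.2) = some a ↔ _
    rw [Option.bind_eq_some_iff]
    constructor
    · rintro ⟨z, h1, h2⟩
      exact ⟨⟨z, h1⟩, h2⟩
    · rintro ⟨⟨z, h1⟩, h2⟩
      exact ⟨z, h1, h2⟩
  refine ⟨v, ?_, ?_⟩
  · have h1 : Primrec fun n : ℕ => Code.evaln n.unpair.1 c n.unpair.2 :=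
      Code.primrec_evaln.comp (Primrec.pair (Primrec.pair (Primrec.fst.comp Primrec.unpair)
        (Primrec.const c)) (Primrec.snd.comp Primrec.unpair))
    refine Primrec.option_bind h1 ?_
    exact Primrec₂.mk (Primrec.decode.comp (Primrec.snd.comp (Primrec.unpair.comp Primrec.fst)))
  · intro a
    constructor
    · intro ha
      have h1 : encode () ∈ c.eval (encode a) := by
        rw [hc', encodek]
        simp only [Part.coe_some, Part.bind_some]
        rw [Part.mem_map_iff]
        exact ⟨(), by simp [Part.mem_assert_iff, ha], rfl⟩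
      obtain ⟨k, hk⟩ := Code.evaln_complete.1 h1
      refine ⟨Nat.pair k (encode a), ?_⟩
      rw [hv, Nat.unpair_pair]
      exact ⟨⟨_, hk⟩, encodek a⟩
    · rintro ⟨n, hn⟩
      obtain ⟨⟨z, hz⟩, hn⟩ := (hv n a).1 hn
      have h1 := Code.evaln_sound (Option.mem_def.2 hz)
      rw [hc', hn] at h1
      simp only [Part.coe_some, Part.bind_some] at h1
      obtain ⟨_, h2, _⟩ := (Part.mem_map_iff _).1 h1
      exact (Part.mem_assert_iff.1 h2).1

/-- A primitive recursive enumeration of the graph of a partial recursive function in which
every argument occurs at most once. -/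
theorem enum_graph {α β : Type} [Primcodable α] [Primcodable β] {U : α →. β} (hU : Partrec U) :
    ∃ e : ℕ → Option (α × β), Primrec e ∧
      (∀ q x, x ∈ U q ↔ ∃ n, e n = some (q, x)) ∧
      ∀ m n q x y, e m = some (q, x) → e n = some (q, y) → m = n := by
  obtain ⟨c, hc⟩ := Code.exists_code.1 hU
  have hc' : ∀ q, c.eval (encode q) = (U q).map encode := fun q => by
    rw [hc]
    show (Part.bind (decode (α := α) (encode q)) fun a => Part.map encode (U a)) = _
    rw [encodek]
    simp
  have hev : Primrec₂ fun k i : ℕ => Code.evaln k c i :=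
    Code.primrec_evaln.comp (Primrec.pair (Primrec.pair Primrec.fst (Primrec.const c)) Primrec.snd)
  let e : ℕ → Option (α × β) := fun n =>
    (Code.evaln (n.unpair.1 + 1) c n.unpair.2).bind fun z =>
      bif (Code.evaln n.unpair.1 c n.unpair.2).isSome then Option.none else
        (decode₂ α n.unpair.2).bind fun q => (decode (α := β) z).map fun x => (q, x)
  have he1 : ∀ n q x, e n = some (q, x) → Code.evaln n.unpair.1 c n.unpair.2 = Option.none ∧
      n.unpair.2 = encode q ∧ ∃ z, Code.evaln (n.unpair.1 + 1) c n.unpair.2 = some z ∧
        decode z = some x := by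
    intro n q x h
    change ((Code.evaln (n.unpair.1 + 1) c n.unpair.2).bind fun z =>
      bif (Code.evaln n.unpair.1 c n.unpair.2).isSome then Option.none else
        (decode₂ α n.unpair.2).bind fun q => (decode (α := β) z).map fun x => (q, x)) =
        some (q, x) at h
    rw [Option.bind_eq_some_iff] at h
    obtain ⟨z, h1, h2⟩ := h
    cases h' : Code.evaln n.unpair.1 c n.unpair.2 with
    | none =>
      rw [h'] at h2
      change ((decode₂ α n.unpair.2).bind fun q => (decode (α := β) z).map fun x => (q, x)) =
        some (q, x) at h2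
      rw [Option.bind_eq_some_iff] at h2
      obtain ⟨q', h3, h4⟩ := h2
      rw [Option.map_eq_some_iff] at h4
      obtain ⟨x', h5, h6⟩ := h4
      rw [Prod.mk.injEq] at h6
      refine ⟨rfl, ?_, z, h1, ?_⟩
      · rw [← h6.1]
        exact (mem_decode₂.1 h3).symm
      · rw [h5, h6.2]
    | some z' =>
      rw [h'] at h2
      exact absurd h2 (by simp)
  have he2 : ∀ k q x, Code.evaln k c (encode q) = Option.none →
      Code.evaln (k + 1) c (encode q) = some (encode x) →
      e (Nat.pair k (encode q)) = some (q, x) := by
    intro k q x h1 h2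
    show ((Code.evaln ((Nat.pair k (encode q)).unpair.1 + 1) c
      (Nat.pair k (encode q)).unpair.2).bind fun z =>
      bif (Code.evaln (Nat.pair k (encode q)).unpair.1 c
        (Nat.pair k (encode q)).unpair.2).isSome then Option.none else
        (decode₂ α (Nat.pair k (encode q)).unpair.2).bind fun q =>
          (decode (α := β) z).map fun x => (q, x)) = some (q, x)
    rw [Nat.unpair_pair]
    simp only [h1, h2, Option.bind_some, encodek, Option.isSome_none, cond_false, encodek₂,
      Option.map_some]
  refine ⟨e, ?_, ?_, ?_⟩
  · have h1 : Primrec fun n : ℕ => Code.evaln n.unpair.1 c n.unpair.2 :=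
      hev.comp (Primrec.fst.comp Primrec.unpair) (Primrec.snd.comp Primrec.unpair)
    have h2 : Primrec fun n : ℕ => Code.evaln (n.unpair.1 + 1) c n.unpair.2 :=
      hev.comp (Primrec.succ.comp (Primrec.fst.comp Primrec.unpair))
        (Primrec.snd.comp Primrec.unpair)
    refine Primrec.option_bind h2 ?_
    refine Primrec₂.mk (Primrec.cond (Primrec.option_isSome.comp (h1.comp Primrec.fst))
      (Primrec.const Option.none) ?_)
    refine Primrec.option_bind (Primrec.decode₂.comp
      (Primrec.snd.comp (Primrec.unpair.comp Primrec.fst))) ?_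
    refine Primrec₂.mk (Primrec.option_map (Primrec.decode.comp
      (Primrec.snd.comp Primrec.fst)) ?_)
    exact Primrec₂.mk (Primrec.pair (Primrec.snd.comp Primrec.fst) Primrec.snd)
  · intro q x
    constructor
    · intro hx
      have h1 : encode x ∈ c.eval (encode q) := by
        rw [hc']
        exact Part.mem_map _ hx
      obtain ⟨k, hk⟩ := Code.evaln_complete.1 h1
      classical
      have hex : ∃ k, Code.evaln k c (encode q) ≠ Option.none := ⟨k, by
        rw [Option.mem_def] at hk
        rw [hk]
        simp⟩
      have h0 : Nat.find hex ≠ 0 := by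
        intro h
        have := Nat.find_spec hex
        rw [h] at this
        apply this
        cases hh : Code.evaln 0 c (encode q) with
        | none => rfl
        | some z =>
          exfalso
          have := Code.evaln_bound (Option.mem_def.2 hh)
          omega
      obtain ⟨j, hj⟩ := Nat.exists_eq_succ_of_ne_zero h0
      refine ⟨Nat.pair j (encode q), he2 j q x ?_ ?_⟩
      · by_contra hcon
        have := Nat.find_min' hex hcon
        rw [hj] at this
        exact absurd this (by simp)
      · have hs := Nat.find_spec hex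
        rw [hj] at hs
        obtain ⟨z, hz⟩ := Option.ne_none_iff_exists'.1 hs
        have h2 := Code.evaln_sound (Option.mem_def.2 hz)
        have h3 := Part.mem_unique h1 h2
        show Code.evaln (j + 1) c (encode q) = some (encode x)
        rw [h3]
        exact hz
    · rintro ⟨n, hn⟩
      obtain ⟨-, h2, z, h3, h4⟩ := he1 n q x hn
      have h1 := Code.evaln_sound (Option.mem_def.2 h3)
      rw [h2, hc'] at h1
      obtain ⟨y, hy, hyx⟩ := (Part.mem_map_iff _).1 h1
      rw [← hyx, encodek] at h4
      rw [← Option.some_injective _ h4]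
      exact hy
  · intro m n q x y hm hn
    obtain ⟨a1, a2, z, a3, -⟩ := he1 m q x hm
    obtain ⟨b1, b2, z', b3, -⟩ := he1 n q y hn
    rw [a2] at a1 a3
    rw [b2] at b1 b3
    have key : ∀ i j, Code.evaln i c (encode q) = Option.none → ∀ z,
        Code.evaln (j + 1) c (encode q) = some z → i ≤ j := by
      intro i j h1 z h2
      by_contra hcon
      have := Code.evaln_mono (show j + 1 ≤ i by omega) (Option.mem_def.2 h2)
      rw [Option.mem_def, h1] at this
      exact absurd this (by simp)
    have e1 : m.unpair.1 = n.unpair.1 := le_antisymm (key _ _ a1 _ b3) (key _ _ b1 _ a3)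
    have e2 : m.unpair.2 = n.unpair.2 := by rw [a2, b2]
    rw [← Nat.pair_unpair m, ← Nat.pair_unpair n, e1, e2]

end Q217.CO
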