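import Mathlib

set_option autoImplicit false

/-! The potential argument. Items are born and die; `G` is the mass already spent. -/

namespace Q217.CO

/-- `F` is (like) the function measuring `V ∩ [0, z]`, where `V` has measure at most `δ`. -/
structure Pot (F : ℝ → ℝ) (δ : ℝ) (V : Set ℝ) : Prop where
  nonneg : ∀ z, 0 ≤ F z
  le : ∀ z, F z ≤ δ
  mono : ∀ a b, a ≤ b → F a ≤ F b
  lip : ∀ a b, 0 ≤ a → a ≤ b → F b - F a ≤ b - a
  full : ∀ a b, 0 ≤ a → a ≤ b → Set.Ioo a b ⊆ V → b - a ≤ F b - F a

open MeasureTheory in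
theorem pot_volume {V : Set ℝ} (hV : MeasurableSet V) {δ : ℝ} (hδ : 0 ≤ δ)
    (h : volume V ≤ ENNReal.ofReal δ) : Pot (fun z => (volume (V ∩ Set.Icc 0 z)).toReal) δ V := by
  have hle : ∀ z, volume (V ∩ Set.Icc 0 z) ≤ ENNReal.ofReal δ := fun z =>
    (measure_mono Set.inter_subset_left).trans h
  have hfin : ∀ z, volume (V ∩ Set.Icc 0 z) ≠ ⊤ := fun z =>
    ((hle z).trans_lt ENNReal.ofReal_lt_top).ne
  have hsplit : ∀ a b : ℝ, 0 ≤ a → a ≤ b → (volume (V ∩ Set.Icc 0 b)).toReal =
      (volume (V ∩ Set.Icc 0 a)).toReal + (volume (V ∩ Set.Ioc a b)).toReal := by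
    intro a b h0 hab
    rw [← ENNReal.toReal_add (hfin a) ((measure_mono Set.inter_subset_left).trans_lt
      (h.trans_lt ENNReal.ofReal_lt_top)).ne, ← measure_union]
    · congr 2
      rw [← Set.inter_union_distrib_left, Set.Icc_union_Ioc_eq_Icc h0 hab]
    · rw [Set.disjoint_left]
      rintro x ⟨_, hx⟩ ⟨_, hx'⟩
      exact absurd hx.2 (not_le.2 hx'.1)
    · exact hV.inter measurableSet_Ioc
  refine ⟨fun z => ENNReal.toReal_nonneg, fun z => ?_, fun a b hab => ?_, fun a b h0 hab => ?_,
    fun a b h0 hab hV' => ?_⟩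
  · exact ENNReal.toReal_le_of_le_ofReal hδ (hle z)
  · exact ENNReal.toReal_mono (hfin b) (measure_mono (Set.inter_subset_inter_right _
      (Set.Icc_subset_Icc_right hab)))
  · show (volume (V ∩ Set.Icc 0 b)).toReal - (volume (V ∩ Set.Icc 0 a)).toReal ≤ b - a
    rw [hsplit a b h0 hab, add_sub_cancel_left]
    refine ENNReal.toReal_le_of_le_ofReal (by linarith) ?_
    rw [← Real.volume_Ioc]
    exact measure_mono Set.inter_subset_right
  · show b - a ≤ (volume (V ∩ Set.Icc 0 b)).toReal - (volume (V ∩ Set.Icc 0 a)).toReal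
    rw [hsplit a b h0 hab, add_sub_cancel_left]
    have h1 : Set.Ioo a b ⊆ V ∩ Set.Ioc a b := fun x hx => ⟨hV' hx, hx.1, hx.2.le⟩
    have h2 : volume (V ∩ Set.Ioc a b) ≠ ⊤ := ((measure_mono Set.inter_subset_left).trans_lt
      (h.trans_lt ENNReal.ofReal_lt_top)).ne
    have h3 := ENNReal.toReal_mono h2 (measure_mono h1)
    rwa [Real.volume_Ioo, ENNReal.toReal_ofReal (by linarith)] at h3

open Classical

section

variable (B : ℕ → Finset ℕ) (dead : ℕ → ℕ → Prop) (m : ℕ → ℝ) (G : ℕ → ℝ) (u : ℝ)

/-- The mass born between two times. -/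
noncomputable def Mass (S t : ℕ) : ℝ := ∑ i ∈ B t \ B S, m i

/-- The mass born and dead between two times. -/
noncomputable def EE (S t : ℕ) : ℝ := ∑ i ∈ B t \ B S, if dead i t ∧ ¬ dead i S then m i else 0

/-- The number of items born at the first time and dying before the second. -/
noncomputable def KK (S t : ℕ) : ℕ := ((B S).filter fun i => dead i t ∧ ¬ dead i S).card

/-- The mass of the living items. -/
noncomputable def AA (t : ℕ) : ℝ := ∑ i ∈ B t, if dead i t then 0 else m i

/-- The present value. -/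
noncomputable def ff (t : ℕ) : ℝ := AA B dead m t + u * G t

variable {B dead m G u}

theorem Mass_nonneg (hm : ∀ i, 0 ≤ m i) (S t : ℕ) : 0 ≤ Mass B m S t :=
  Finset.sum_nonneg fun i _ => hm i

theorem Mass_add (hB : Monotone B) {S s t : ℕ} (h1 : S ≤ s) (h2 : s ≤ t) :
    Mass B m S t = Mass B m S s + Mass B m s t := by
  unfold Mass
  rw [← Finset.sum_union]
  · congr 1
    ext i
    simp only [Finset.mem_union, Finset.mem_sdiff]
    have a := @hB _ _ h1 i
    have b := @hB _ _ h2 i
    tauto
  · rw [Finset.disjoint_left]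
    intro i
    simp only [Finset.mem_sdiff]
    tauto

theorem EE_nonneg (hm : ∀ i, 0 ≤ m i) (S t : ℕ) : 0 ≤ EE B dead m S t :=
  Finset.sum_nonneg fun i _ => by
    split_ifs
    · exact hm i
    · exact le_rfl

theorem EE_le (hm : ∀ i, 0 ≤ m i) (S t : ℕ) : EE B dead m S t ≤ ∑ i ∈ B t, m i := by
  refine (Finset.sum_le_sum fun i _ => ?_).trans
    (Finset.sum_le_sum_of_subset_of_nonneg (f := m) Finset.sdiff_subset fun i _ _ => hm i)
  split_ifs
  · exact le_rfl
  · exact hm i

theorem EE_mono_left (hB : Monotone B) (hd : ∀ i s t, s ≤ t → dead i s → dead i t)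
    (hm : ∀ i, 0 ≤ m i) {S s t : ℕ} (h1 : S ≤ s) : EE B dead m s t ≤ EE B dead m S t := by
  unfold EE
  refine (Finset.sum_le_sum fun i _ => ?_).trans (Finset.sum_le_sum_of_subset_of_nonneg
    (f := fun i => if dead i t ∧ ¬ dead i S then m i else 0)
    (Finset.sdiff_subset_sdiff (Finset.Subset.refl _) (hB h1)) fun i _ _ => ?_)
  · by_cases h : dead i t ∧ ¬ dead i s
    · rw [if_pos h, if_pos ⟨h.1, fun h' => h.2 (hd _ _ _ h1 h')⟩]
    · rw [if_neg h]
      split_ifs
      · exact hm i
      · exact le_rfl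
  · show 0 ≤ if dead i t ∧ ¬ dead i S then m i else 0
    split_ifs
    · exact hm i
    · exact le_rfl

/-- The mass born before `s` (after `S`) that dies between `s` and `t`. -/
noncomputable def DD (B : ℕ → Finset ℕ) (dead : ℕ → ℕ → Prop) (m : ℕ → ℝ) (S s t : ℕ) : ℝ :=
  ∑ i ∈ B s \ B S, if dead i t ∧ ¬ dead i s then m i else 0

theorem DD_nonneg (hm : ∀ i, 0 ≤ m i) (S s t : ℕ) : 0 ≤ DD B dead m S s t :=
  Finset.sum_nonneg fun i _ => by
    split_ifs
    · exact hm i
    · exact le_rfl

theorem EE_add (hB : Monotone B) (hd : ∀ i s t, s ≤ t → dead i s → dead i t)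
    (hm : ∀ i, 0 ≤ m i) {S s t : ℕ} (h1 : S ≤ s) (h2 : s ≤ t) :
    EE B dead m S s + EE B dead m s t + DD B dead m S s t ≤ EE B dead m S t := by
  have hsplit : EE B dead m S t =
      (∑ i ∈ B s \ B S, if dead i t ∧ ¬ dead i S then m i else 0) +
      ∑ i ∈ B t \ B s, if dead i t ∧ ¬ dead i S then m i else 0 := by
    unfold EE
    rw [← Finset.sum_union]
    · congr 1
      ext i
      simp only [Finset.mem_union, Finset.mem_sdiff]
      have a := @hB _ _ h1 i
      have b := @hB _ _ h2 i
      tauto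
    · rw [Finset.disjoint_left]
      intro i
      simp only [Finset.mem_sdiff]
      tauto
  have e1 : EE B dead m S s + DD B dead m S s t ≤
      ∑ i ∈ B s \ B S, if dead i t ∧ ¬ dead i S then m i else 0 := by
    unfold EE DD
    rw [← Finset.sum_add_distrib]
    refine Finset.sum_le_sum fun i _ => ?_
    have a := hd i S s h1
    have b := hd i s t h2
    by_cases h3 : dead i S
    · have a1 := a h3
      have b1 := b a1
      simp [h3, a1]
    · by_cases h4 : dead i s
      · have b1 := b h4
        simp [h3, h4, b1]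
      · by_cases h5 : dead i t <;> simp [h3, h4, h5]
  have e2 : EE B dead m s t ≤ ∑ i ∈ B t \ B s, if dead i t ∧ ¬ dead i S then m i else 0 := by
    unfold EE
    refine Finset.sum_le_sum fun i _ => ?_
    by_cases h : dead i t ∧ ¬ dead i s
    · rw [if_pos h, if_pos ⟨h.1, fun h' => h.2 (hd _ _ _ h1 h')⟩]
    · rw [if_neg h]
      split_ifs
      · exact hm i
      · exact le_rfl
  rw [hsplit]
  linarith

theorem AA_sub (hB : Monotone B) (hd : ∀ i s t, s ≤ t → dead i s → dead i t) {s t : ℕ}
    (h2 : s ≤ t) : AA B dead m t - AA B dead m s =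
      (∑ i ∈ B t \ B s, if dead i t then 0 else m i) -
        ∑ i ∈ B s, if dead i t ∧ ¬ dead i s then m i else 0 := by
  have h := Finset.sum_sdiff (f := fun i => if dead i t then 0 else m i) (hB h2)
  have h' : (∑ i ∈ B s, if dead i t then 0 else m i) =
      (∑ i ∈ B s, if dead i s then 0 else m i) -
        ∑ i ∈ B s, if dead i t ∧ ¬ dead i s then m i else 0 := by
    rw [← Finset.sum_sub_distrib]
    refine Finset.sum_congr rfl fun i _ => ?_
    have b := hd i s t h2
    by_cases h4 : dead i s
    · simp [h4, b h4]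
    · by_cases h5 : dead i t <;> simp [h4, h5]
  unfold AA
  linarith

theorem KK_add (hd : ∀ i s t, s ≤ t → dead i s → dead i t) {S s t : ℕ}
    (h1 : S ≤ s) (h2 : s ≤ t) : KK B dead S t =
      KK B dead S s + ((B S).filter fun i => dead i t ∧ ¬ dead i s).card := by
  unfold KK
  rw [← Finset.card_union_of_disjoint]
  · congr 1
    ext i
    simp only [Finset.mem_union, Finset.mem_filter]
    have a := hd i S s h1
    have b := hd i s t h2
    tauto
  · rw [Finset.disjoint_left]
    intro i
    simp only [Finset.mem_filter]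
    tauto

/-- The main inequality for one time interval. -/
theorem step_ineq (hB : Monotone B) (hd : ∀ i s t, s ≤ t → dead i s → dead i t)
    (hm : ∀ i, 0 ≤ m i) {F : ℝ → ℝ} {δ : ℝ} {V : Set ℝ} (hF : Pot F δ V) (hu : 0 ≤ u)
    (hu1 : u ≤ 1) {S s t : ℕ} (h1 : S ≤ s) (h2 : s ≤ t) (hf : 0 ≤ ff B dead m G u s)
    (hf' : 0 ≤ ff B dead m G u t) (hG : G s ≤ G t)
    (hcase : G t = G s ∨ ∃ r, ff B dead m G u s < r ∧ Set.Ioo (ff B dead m G u s) r ⊆ V ∧
      G t - G s ≤ (r - ff B dead m G u s) / 8) :
    EE B dead m S s + EE B dead m s t + u * (G t - G s) -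
      (F (ff B dead m G u t) - F (ff B dead m G u s)) - u / 4 * Mass B m s t -
      2 * ((KK B dead S t : ℝ) - KK B dead S s) * δ ≤ EE B dead m S t := by
  have hE := EE_add (m := m) hB hd hm h1 h2
  have hD := DD_nonneg (B := B) (dead := dead) hm S s t
  have hM := Mass_nonneg (B := B) hm s t
  have hAA := AA_sub (m := m) hB hd h2
  have hK := KK_add (B := B) hd h1 h2
  have hp : (∑ i ∈ B t \ B s, if dead i t then 0 else m i) ≤ Mass B m s t :=
    Finset.sum_le_sum fun i _ => by
      split_ifs
      · exact hm i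
      · exact le_rfl
  have hp0 : 0 ≤ ∑ i ∈ B t \ B s, if dead i t then 0 else m i :=
    Finset.sum_nonneg fun i _ => by
      split_ifs
      · exact le_rfl
      · exact hm i
  have hff : ff B dead m G u t - ff B dead m G u s =
      u * (G t - G s) + (AA B dead m t - AA B dead m s) := by
    unfold ff
    ring
  have hsp : 0 ≤ u * (G t - G s) := mul_nonneg hu (by linarith)
  have hδ : 0 ≤ δ := (hF.nonneg 0).trans (hF.le 0)
  set fs := ff B dead m G u s with hfs
  set ft := ff B dead m G u t with hft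
  set p := ∑ i ∈ B t \ B s, if dead i t then 0 else m i with hpdef
  by_cases hk : ((B S).filter fun i => dead i t ∧ ¬ dead i s).card = 0
  · have hK0 : (KK B dead S t : ℝ) - KK B dead S s = 0 := by
      rw [hK, hk]
      simp
    rw [hK0]
    have hr : (∑ i ∈ B s, if dead i t ∧ ¬ dead i s then m i else 0) = DD B dead m S s t := by
      have h3 := Finset.sum_sdiff (f := fun i => if dead i t ∧ ¬ dead i s then m i else 0) (hB h1)
      have h4 : (∑ i ∈ B S, if dead i t ∧ ¬ dead i s then m i else 0) = 0 := by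
        refine Finset.sum_eq_zero fun i hi => if_neg fun h => ?_
        rw [Finset.card_eq_zero, Finset.filter_eq_empty_iff] at hk
        exact hk hi h
      unfold DD
      linarith
    rw [hr] at hAA
    have huM : 0 ≤ u / 4 * Mass B m s t := by positivity
    suffices h : u * (G t - G s) - (F ft - F fs) - u / 4 * Mass B m s t ≤ DD B dead m S s t by
      linarith
    by_cases hlt : ft < fs
    · have := hF.lip ft fs hf' hlt.le
      linarith
    · rw [not_lt] at hlt
      have hmono := hF.mono _ _ hlt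
      rcases hcase with h0 | ⟨r, hr1, hr2, hr3⟩
      · rw [h0, sub_self, mul_zero]
        linarith
      · have hspr : u * (G t - G s) ≤ u * ((r - fs) / 8) := mul_le_mul_of_nonneg_left hr3 hu
        by_cases hle : ft ≤ r
        · have := hF.full fs ft hf hlt (fun x hx => hr2 ⟨hx.1, hx.2.trans_le hle⟩)
          linarith
        · rw [not_le] at hle
          have h5 : u * ((r - fs) / 8) ≤ u * ((ft - fs) / 8) :=
            mul_le_mul_of_nonneg_left (by linarith) hu
          have h6 : u * ((ft - fs) / 8) ≤ (ft - fs) / 8 := by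
            have : 0 ≤ (ft - fs) / 8 := by linarith
            nlinarith
          have h7 : ft - fs ≤ 2 * p := by linarith
          have h8 : u * ((ft - fs) / 8) ≤ u / 4 * p := by nlinarith
          have h9 : u / 4 * p ≤ u / 4 * Mass B m s t :=
            mul_le_mul_of_nonneg_left hp (by positivity)
          linarith
  · have hk1 : (1 : ℝ) ≤ (KK B dead S t : ℝ) - KK B dead S s := by
      rw [hK]
      have : 1 ≤ ((B S).filter fun i => dead i t ∧ ¬ dead i s).card := Nat.one_le_iff_ne_zero.2 hk
      have h3 : (1 : ℝ) ≤ (((B S).filter fun i => dead i t ∧ ¬ dead i s).card : ℝ) := by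
        exact_mod_cast this
      push_cast
      linarith
    have h4 : 2 * δ ≤ 2 * ((KK B dead S t : ℝ) - KK B dead S s) * δ := by nlinarith
    have h5 : u * (G t - G s) ≤ δ := by
      rcases hcase with h0 | ⟨r, hr1, hr2, hr3⟩
      · rw [h0, sub_self, mul_zero]
        exact hδ
      · have h6 := hF.full fs r hf hr1.le hr2
        have h7 := hF.le r
        have h8 := hF.nonneg fs
        have h9 : u * (G t - G s) ≤ 1 * (G t - G s) :=
          mul_le_mul_of_nonneg_right hu1 (by linarith)
        linarith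
    have h6 := hF.le fs
    have h7 := hF.nonneg ft
    have huM : 0 ≤ u / 4 * Mass B m s t := by positivity
    linarith

end

end Q217.CO
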