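import Pool.Agent.Q217.CO.Run
import Pool.Agent.Q217.CO.Pot

set_option autoImplicit false

/-! The analysis of the run. -/

namespace Q217.CO

open Classical

variable (e : ℕ → Option (List Bool × List Bool)) (v : ℕ → Option (List Bool))
  (T : ℕ → Option (ℕ × ℕ × ℕ × ℕ)) (w : List Bool)

/-- The weight of the code. -/
noncomputable def uu : ℝ := (1 / 2) ^ w.length

/-- The amount spent. -/
noncomputable def GG (t : ℕ) : ℝ := ((run e v T w t).1 : ℝ) / 2 ^ t

/-- The items born. -/
noncomputable def BB (t : ℕ) : Finset ℕ := (Finset.range t).filter fun i =>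
  ∃ qx, e i = some qx ∧ qx.1.length ≤ t ∧ qx.1.take w.length ≠ w

/-- The dead items. -/
def dd (i t : ℕ) : Prop := ∃ qx, e i = some qx ∧ ∃ j < t, v j = some qx.2

/-- The mass of an item. -/
noncomputable def mm (i : ℕ) : ℝ :=
  match e i with
  | none => 0
  | some qx => (1 / 2) ^ qx.1.length

/-- The present value. -/
noncomputable def fv (t : ℕ) : ℝ := ff (BB e w) (dd e v) (mm e) (GG e v T w) (uu w) t

/-- The open sets of the test. -/
def VV (c : ℕ) : Set ℝ := {x | ∃ i n a b, T i = some (c, n, a, b) ∧ (a : ℝ) / 2 ^ n < x ∧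
  x < (b : ℝ) / 2 ^ n}

variable {e v T w}

theorem uu_pos : 0 < uu w := by unfold uu; positivity

theorem uu_le : uu w ≤ 1 := by
  unfold uu
  exact pow_le_one₀ (by norm_num) (by norm_num)

theorem BB_mono : Monotone (BB e w) := by
  intro s t hst i hi
  unfold BB at *
  rw [Finset.mem_filter, Finset.mem_range] at *
  obtain ⟨h1, qx, h2, h3, h4⟩ := hi
  exact ⟨by omega, qx, h2, by omega, h4⟩

theorem dd_mono (i s t : ℕ) (hst : s ≤ t) (h : dd e v i s) : dd e v i t := by
  obtain ⟨qx, h1, j, h2, h3⟩ := h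
  exact ⟨qx, h1, j, by omega, h3⟩

theorem mm_nonneg (i : ℕ) : 0 ≤ mm e i := by
  unfold mm
  split
  · exact le_rfl
  · positivity

theorem card_BB (t : ℕ) : (BB e w t).card ≤ t := by
  unfold BB
  refine (Finset.card_filter_le _ _).trans ?_
  simp

theorem term_eq (t i : ℕ) (hi : i < t) : (term e v w t i : ℝ) =
    2 ^ t * if i ∈ BB e w t then (if dd e v i t then 0 else mm e i) else 0 := by
  cases h : e i with
  | none =>
    have h1 : term e v w t i = 0 := by
      unfold term
      rw [h]
    have h2 : i ∉ BB e w t := by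
      unfold BB
      rw [Finset.mem_filter]
      rintro ⟨_, qx, h2, _⟩
      rw [h] at h2
      exact absurd h2 (by simp)
    rw [h1, if_neg h2]
    simp
  | some qx =>
    have hB : i ∈ BB e w t ↔ qx.1.length ≤ t ∧ qx.1.take w.length ≠ w := by
      unfold BB
      rw [Finset.mem_filter, Finset.mem_range]
      constructor
      · rintro ⟨_, qx', h2, h3⟩
        rw [h] at h2
        rw [Option.some_injective _ h2]
        exact h3
      · rintro h3
        exact ⟨hi, qx, h, h3⟩
    have hd : dd e v i t ↔ ∃ j < t, v j = some qx.2 := by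
      unfold dd
      constructor
      · rintro ⟨qx', h2, h3⟩
        rw [h] at h2
        rw [Option.some_injective _ h2]
        exact h3
      · intro h3
        exact ⟨qx, h, h3⟩
    have hm : mm e i = (1 / 2) ^ qx.1.length := by
      unfold mm
      rw [h]
    have ht : term e v w t i = if qx.1.length ≤ t ∧ qx.1.take w.length ≠ w ∧
        ¬ ∃ j < t, v j = some qx.2 then 2 ^ (t - qx.1.length) else 0 := by
      unfold term
      rw [h]
    rw [ht]
    by_cases h1 : qx.1.length ≤ t ∧ qx.1.take w.length ≠ w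
    · rw [if_pos (hB.2 h1)]
      by_cases h2 : ∃ j < t, v j = some qx.2
      · rw [if_pos (hd.2 h2), if_neg (fun h' => h'.2.2 h2)]
        simp
      · rw [if_neg (fun h' => h2 (hd.1 h')), if_pos ⟨h1.1, h1.2, h2⟩, hm]
        rw [Nat.cast_pow, Nat.cast_ofNat, pow_sub₀ _ (by norm_num) h1.1, one_div, inv_pow]
    · rw [if_neg (fun h' => h1 (hB.1 h')), if_neg (fun h' => h1 ⟨h'.1, h'.2.1⟩)]
      simp

theorem AN_eq (t : ℕ) : (AN e v w t : ℝ) = 2 ^ t * AA (BB e w) (dd e v) (mm e) t := by
  unfold AN AA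
  rw [Nat.cast_sum, Finset.mul_sum]
  have hsub : BB e w t ⊆ Finset.range t := Finset.filter_subset _ _
  rw [← Finset.sum_subset hsub (f := fun i => (term e v w t i : ℝ))]
  · refine Finset.sum_congr rfl fun i hi => ?_
    rw [term_eq t i (Finset.mem_range.1 (hsub hi)), if_pos hi]
  · intro i hi hi'
    rw [term_eq t i (Finset.mem_range.1 hi), if_neg hi', mul_zero]

theorem FN_eq (t : ℕ) : (FN e v w t (run e v T w t).1 : ℝ) =
    2 ^ (t + w.length) * fv e v T w t := by
  unfold FN fv ff GG uu
  rw [Nat.cast_add, Nat.cast_mul, AN_eq, Nat.cast_pow, Nat.cast_ofNat, pow_add, one_div, inv_pow]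
  field_simp

theorem AA_nonneg (t : ℕ) : 0 ≤ AA (BB e w) (dd e v) (mm e) t :=
  Finset.sum_nonneg fun i _ => by
    split_ifs
    · exact le_rfl
    · exact mm_nonneg i

theorem GG_nonneg (t : ℕ) : 0 ≤ GG e v T w t := by unfold GG; positivity

theorem fv_nonneg (t : ℕ) : 0 ≤ fv e v T w t :=
  add_nonneg (AA_nonneg t) (mul_nonneg uu_pos.le (GG_nonneg t))

theorem HN_spec {t c : ℕ} (h : 0 < HN e v T w t (run e v T w t).1 c) :
    ∃ r, fv e v T w t < r ∧ Set.Ioo (fv e v T w t) r ⊆ VV T c ∧
      (HN e v T w t (run e v T w t).1 c : ℝ) / 2 ^ t ≤ (r - fv e v T w t) / 8 := by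
  set g := (run e v T w t).1 with hg
  have hne : (Finset.range t).Nonempty := by
    rw [Finset.nonempty_range_iff]
    rintro rfl
    simp [HN] at h
  obtain ⟨i, hi, hi'⟩ := Finset.exists_mem_eq_sup _ hne (hterm e v T w t g c)
  have hH : HN e v T w t g c = hterm e v T w t g c i := hi'
  rw [hH] at h ⊢
  cases hT : T i with
  | none =>
    unfold hterm at h
    rw [hT] at h
    exact absurd h (by simp)
  | some p =>
    obtain ⟨c', n, a, b⟩ := p
    have hval : hterm e v T w t g c i = if c' = c ∧ n ≤ t ∧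
        a * 2 ^ (t + w.length - n) < FN e v w t g then
        (b * 2 ^ (t + w.length - n) - FN e v w t g) / 2 ^ (w.length + 3) else 0 := by
      unfold hterm
      rw [hT]
    rw [hval] at h ⊢
    by_cases hc : c' = c ∧ n ≤ t ∧ a * 2 ^ (t + w.length - n) < FN e v w t g
    · rw [if_pos hc] at h ⊢
      obtain ⟨rfl, hn, ha⟩ := hc
      have hF := FN_eq (e := e) (v := v) (T := T) (w := w) t
      rw [← hg] at hF
      have hb : FN e v w t g < b * 2 ^ (t + w.length - n) := by
        by_contra hcon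
        rw [not_lt] at hcon
        rw [Nat.sub_eq_zero_of_le hcon] at h
        simp at h
      have hN : (2 : ℝ) ^ (t + w.length) = 2 ^ (t + w.length - n) * 2 ^ n := by
        rw [← pow_add]
        congr 1
        omega
      have hpos : (0 : ℝ) < 2 ^ (t + w.length) := by positivity
      have hpos' : (0 : ℝ) < 2 ^ (t + w.length - n) := by positivity
      have e1 : ∀ x : ℕ, (x : ℝ) / 2 ^ n = (x * 2 ^ (t + w.length - n) : ℕ) / 2 ^ (t + w.length) := by
        intro x
        rw [hN]
        push_cast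
        field_simp
      have e2 : fv e v T w t = (FN e v w t g : ℝ) / 2 ^ (t + w.length) := by
        rw [hF]
        field_simp
      refine ⟨(b : ℝ) / 2 ^ n, ?_, ?_, ?_⟩
      · rw [e1 b, e2]
        exact div_lt_div_of_pos_right (by exact_mod_cast hb) hpos
      · intro x hx
        refine ⟨i, n, a, b, hT, ?_, hx.2⟩
        refine lt_trans ?_ hx.1
        rw [e1 a, e2]
        exact div_lt_div_of_pos_right (by exact_mod_cast ha) hpos
      · rw [e1 b, e2]
        have h3 : (((b * 2 ^ (t + w.length - n) - FN e v w t g) / 2 ^ (w.length + 3) : ℕ) : ℝ) ≤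
            ((b * 2 ^ (t + w.length - n) : ℕ) - (FN e v w t g : ℝ)) / 2 ^ (w.length + 3) := by
          have := Nat.cast_div_le (α := ℝ) (m := b * 2 ^ (t + w.length - n) - FN e v w t g)
            (n := 2 ^ (w.length + 3))
          rw [Nat.cast_sub hb.le] at this
          refine this.trans (le_of_eq ?_)
          push_cast
          ring
        have h4 := div_le_div_of_nonneg_right h3 (show (0 : ℝ) ≤ 2 ^ t by positivity)
        refine h4.trans (le_of_eq ?_)
        rw [pow_add, pow_add]
        field_simp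
        norm_num
    · rw [if_neg hc] at h
      exact absurd h (lt_irrefl 0)

theorem HN_lower {t c i n a b : ℕ} (hi : i < t) (hT : T i = some (c, n, a, b)) (hn : n ≤ t)
    (ha : (a : ℝ) / 2 ^ n < fv e v T w t) (hb : fv e v T w t < (b : ℝ) / 2 ^ n) :
    ((b : ℝ) / 2 ^ n - fv e v T w t) / 8 - 1 / 2 ^ t ≤
      (HN e v T w t (run e v T w t).1 c : ℝ) / 2 ^ t := by
  set g := (run e v T w t).1 with hg
  have hF := FN_eq (e := e) (v := v) (T := T) (w := w) t
  rw [← hg] at hF
  have hN : (2 : ℝ) ^ (t + w.length) = 2 ^ (t + w.length - n) * 2 ^ n := by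
    rw [← pow_add]
    congr 1
    omega
  have hpos : (0 : ℝ) < 2 ^ (t + w.length) := by positivity
  have hpos' : (0 : ℝ) < 2 ^ (t + w.length - n) := by positivity
  have e1 : ∀ x : ℕ, (x : ℝ) / 2 ^ n = (x * 2 ^ (t + w.length - n) : ℕ) / 2 ^ (t + w.length) := by
    intro x
    rw [hN]
    push_cast
    field_simp
  have e2 : fv e v T w t = (FN e v w t g : ℝ) / 2 ^ (t + w.length) := by
    rw [hF]
    field_simp
  have ha' : a * 2 ^ (t + w.length - n) < FN e v w t g := by
    rw [e1, e2, div_lt_div_iff_of_pos_right hpos] at ha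
    exact_mod_cast ha
  have hb' : FN e v w t g < b * 2 ^ (t + w.length - n) := by
    rw [e1, e2, div_lt_div_iff_of_pos_right hpos] at hb
    exact_mod_cast hb
  have hle : hterm e v T w t g c i ≤ HN e v T w t g c :=
    Finset.le_sup (f := hterm e v T w t g c) (Finset.mem_range.2 hi)
  have hval : hterm e v T w t g c i =
      (b * 2 ^ (t + w.length - n) - FN e v w t g) / 2 ^ (w.length + 3) := by
    unfold hterm
    rw [hT]
    exact if_pos ⟨rfl, hn, ha'⟩
  rw [hval] at hle
  have h1 : b * 2 ^ (t + w.length - n) - FN e v w t g <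
      2 ^ (w.length + 3) * (HN e v T w t g c + 1) := by
    have h2 := Nat.lt_mul_div_succ (b * 2 ^ (t + w.length - n) - FN e v w t g)
      (show 0 < 2 ^ (w.length + 3) by positivity)
    exact h2.trans_le (Nat.mul_le_mul_left _ (by omega))
  have h3 : ((b * 2 ^ (t + w.length - n) : ℕ) : ℝ) - (FN e v w t g : ℝ) <
      2 ^ (w.length + 3) * ((HN e v T w t g c : ℝ) + 1) := by
    have : ((b * 2 ^ (t + w.length - n) - FN e v w t g : ℕ) : ℝ) <
      ((2 ^ (w.length + 3) * (HN e v T w t g c + 1) : ℕ) : ℝ) := by exact_mod_cast h1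
    rw [Nat.cast_sub hb'.le] at this
    push_cast at this ⊢
    exact this
  rw [e1 b, e2]
  have h4 := (div_lt_div_of_pos_right h3 (show (0 : ℝ) < 2 ^ (w.length + 3) * 2 ^ t by
    positivity)).le
  have e3 : ((b * 2 ^ (t + w.length - n) : ℕ) : ℝ) / 2 ^ (t + w.length) -
      (FN e v w t g : ℝ) / 2 ^ (t + w.length) =
      8 * ((((b * 2 ^ (t + w.length - n) : ℕ) : ℝ) - (FN e v w t g : ℝ)) /
        (2 ^ (w.length + 3) * 2 ^ t)) := by
    rw [pow_add, pow_add]
    field_simp
    norm_num
  have e4 : 2 ^ (w.length + 3) * ((HN e v T w t g c : ℝ) + 1) / (2 ^ (w.length + 3) * 2 ^ t) =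
      (HN e v T w t g c : ℝ) / 2 ^ t + 1 / 2 ^ t := by
    field_simp
  rw [e4] at h4
  rw [e3]
  linarith

/-- The stack scaled. -/
def sc (k : ℕ) (L : List (ℕ × ℕ)) : List (ℕ × ℕ) := L.map fun p => (2 ^ k * p.1, p.2)

theorem sc_zero (L : List (ℕ × ℕ)) : sc 0 L = L := by
  unfold sc
  simp

theorem sc_dbl (k : ℕ) (L : List (ℕ × ℕ)) : (sc k L).map dbl = sc (k + 1) L := by
  unfold sc dbl
  rw [List.map_map]
  congr 1
  funext p
  simp only [Function.comp]
  rw [pow_succ]
  congr 1
  ring

theorem sc_one (L : List (ℕ × ℕ)) : L.map dbl = sc 1 L := by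
  rw [← sc_dbl 0, sc_zero]

theorem sc_sc (k l : ℕ) (L : List (ℕ × ℕ)) : sc k (sc l L) = sc (k + l) L := by
  unfold sc
  rw [List.map_map]
  congr 1
  funext p
  simp only [Function.comp]
  rw [pow_add]
  congr 1
  ring

theorem sc_length (k : ℕ) (L : List (ℕ × ℕ)) : (sc k L).length = L.length := by
  unfold sc
  simp

theorem sc_cons (k : ℕ) (p : ℕ × ℕ) (L : List (ℕ × ℕ)) :
    sc k (p :: L) = (2 ^ k * p.1, p.2) :: sc k L := rfl

/-- Invariant: the total amount. -/
theorem run_sum (t : ℕ) :
    (run e v T w t).1 + ((run e v T w t).2.map Prod.fst).sum = 2 ^ t := by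
  have hmap : ∀ L : List (ℕ × ℕ), ((L.map dbl).map Prod.fst).sum = 2 * (L.map Prod.fst).sum := by
    intro L
    induction L with
    | nil => rfl
    | cons p L ih =>
      simp only [List.map_cons, List.sum_cons, ih]
      show 2 * p.1 + _ = _
      ring
  induction t with
  | zero => rfl
  | succ t ih =>
    rw [run_succ]
    generalize run e v T w t = s at ih
    obtain ⟨g, L⟩ := s
    unfold step
    cases L with
    | nil =>
      simp only [List.map_nil, List.sum_nil] at ih ⊢
      rw [pow_succ]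
      omega
    | cons f L =>
      dsimp only at ih ⊢
      rw [List.map_cons, List.sum_cons] at ih
      split_ifs with h1 h2 h3
      · rw [hmap, pow_succ]
        omega
      · dsimp only
        rw [hmap, List.map_cons, List.sum_cons, pow_succ]
        omega
      · dsimp only
        rw [hmap, List.map_cons, List.sum_cons, pow_succ]
        have := min_le_left f.1 (HN e v T w t g f.2)
        dsimp only
        omega
      · dsimp only
        rw [hmap, List.map_cons, List.sum_cons, List.map_cons, List.sum_cons, pow_succ]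
        have := min_le_left f.1 (HN e v T w t g f.2)
        dsimp only
        omega

theorem run_le (t : ℕ) : (run e v T w t).1 ≤ 2 ^ t := by
  have := run_sum (e := e) (v := v) (T := T) (w := w) t
  omega

theorem run_mono (t : ℕ) : 2 * (run e v T w t).1 ≤ (run e v T w (t + 1)).1 := by
  rw [run_succ]
  generalize run e v T w t = s
  obtain ⟨g, L⟩ := s
  unfold step
  cases L with
  | nil => exact le_rfl
  | cons f L =>
    dsimp only
    split_ifs
    · exact le_rfl
    · exact le_rfl
    · dsimp only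
      omega
    · exact le_rfl

theorem GG_succ (t : ℕ) : GG e v T w t ≤ GG e v T w (t + 1) := by
  unfold GG
  rw [pow_succ, div_le_div_iff₀ (by positivity) (by positivity)]
  have h := run_mono (e := e) (v := v) (T := T) (w := w) t
  have h' : (2 : ℝ) * ((run e v T w t).1 : ℝ) ≤ ((run e v T w (t + 1)).1 : ℝ) := by
    exact_mod_cast h
  have : (0 : ℝ) < 2 ^ t := by positivity
  nlinarith

theorem GG_mono : Monotone (GG e v T w) := monotone_nat_of_le_succ GG_succ

theorem GG_le (t : ℕ) : GG e v T w t ≤ 1 := by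
  unfold GG
  rw [div_le_one (by positivity)]
  exact_mod_cast run_le t

/-- What a slot of level `j` achieves. -/
def Lev (e : ℕ → Option (List Bool × List Bool)) (v : ℕ → Option (List Bool))
    (T : ℕ → Option (ℕ × ℕ × ℕ × ℕ)) (w : List Bool) (j : ℕ) : Prop :=
  ∀ (S g a c : ℕ) (L : List (ℕ × ℕ)), run e v T w S = (g, (a, c) :: L) → 1 ≤ a →
    L.length + j = JJ w →
    (2 * (S : ℝ) + 1) * (1 / 2) ^ c ≤ 1 / 2 * uu w * ((a : ℝ) / 2 ^ S) →
    ∃ t g', S < t ∧ run e v T w t = (g', sc (t - S) L) ∧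
      GG e v T w t = GG e v T w S + (a : ℝ) / 2 ^ S ∧
      (j : ℝ) * (1 / 2 * uu w * ((a : ℝ) / 2 ^ S) - uu w / 4 * Mass (BB e w) (mm e) S t) ≤
        EE (BB e w) (dd e v) (mm e) S t

theorem GG_of_run {s g : ℕ} {L : List (ℕ × ℕ)} (h : run e v T w s = (g, L)) :
    GG e v T w s = (g : ℝ) / 2 ^ s := by
  unfold GG
  rw [h]

/-- One transition. -/
theorem trans_lemma {j : ℕ} (hj : 1 ≤ j → Lev e v T w j) {s g R c : ℕ} {L : List (ℕ × ℕ)}
    (hs : run e v T w s = (g, (R, c) :: L)) (hR : 1 ≤ R)
    (hH : 0 < HN e v T w s g c) (hL : L.length + (j + 1) = JJ w) :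
    ∃ t g', s < t ∧ run e v T w t = (g', (2 ^ (t - s) * (R - min R (HN e v T w s g c)), c) ::
      sc (t - s) L) ∧
      GG e v T w t = GG e v T w s + ((min R (HN e v T w s g c) : ℕ) : ℝ) / 2 ^ s ∧
      (j : ℝ) * (1 / 2 * uu w * (((min R (HN e v T w s g c) : ℕ) : ℝ) / 2 ^ s) -
        uu w / 4 * Mass (BB e w) (mm e) s t) ≤ EE (BB e w) (dd e v) (mm e) s t := by
  set H := min R (HN e v T w s g c) with hHdef
  have hH0 : H ≠ 0 := by
    rw [hHdef]
    omega
  have hR0 : R ≠ 0 := by omega
  have hGs := GG_of_run hs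
  have hrun := run_succ e v T w s
  rw [hs] at hrun
  unfold step at hrun
  dsimp only at hrun
  rw [← hHdef] at hrun
  rw [if_neg hR0, if_neg hH0] at hrun
  rcases Nat.eq_zero_or_pos j with h0 | h0
  · rw [h0] at hL ⊢
    rw [if_pos (by rw [List.length_cons]; omega)] at hrun
    refine ⟨s + 1, 2 * (g + H), by omega, ?_, ?_, ?_⟩
    · rw [hrun, Nat.add_sub_cancel_left, List.map_cons, sc_one, pow_one]
      rfl
    · rw [GG_of_run hrun, hGs, pow_succ]
      push_cast
      field_simp
    · simp only [Nat.cast_zero, zero_mul]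
      exact EE_nonneg mm_nonneg _ _
  · rw [if_neg (by rw [List.length_cons]; omega)] at hrun
    rw [List.map_cons, List.map_cons] at hrun
    have hrun' : run e v T w (s + 1) = (2 * g, (2 * H, 2 * s + w.length + 5) ::
        ((2 * (R - H), c) :: L.map dbl)) := hrun
    have hcond : (2 * ((s + 1 : ℕ) : ℝ) + 1) * (1 / 2) ^ (2 * s + w.length + 5) ≤
        1 / 2 * uu w * (((2 * H : ℕ) : ℝ) / 2 ^ (s + 1)) := by
      have h1 : (1 : ℝ) ≤ H := by exact_mod_cast Nat.one_le_iff_ne_zero.2 hH0
      have h2 : (s : ℝ) + 1 ≤ 2 ^ s := by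
        have : s + 1 ≤ 2 ^ s := Nat.lt_two_pow_self
        exact_mod_cast this
      have e1 : (1 / 2 : ℝ) ^ (2 * s + w.length + 5) =
          uu w * ((1 / 2) ^ s * (1 / 2) ^ s * (1 / 32)) := by
        unfold uu
        rw [show 2 * s + w.length + 5 = w.length + s + s + 5 by ring, pow_add, pow_add, pow_add]
        norm_num
        ring
      have e2 : ((2 * H : ℕ) : ℝ) / 2 ^ (s + 1) = H * (1 / 2) ^ s := by
        rw [pow_succ, one_div, inv_pow]
        push_cast
        field_simp
      rw [e1, e2]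
      have h3 : (2 : ℝ) ^ s * (1 / 2) ^ s = 1 := by
        rw [← mul_pow]
        norm_num
      have h4 : (0 : ℝ) < (1 / 2) ^ s := by positivity
      have h5 := uu_pos (w := w)
      have h6 : (2 * ((s + 1 : ℕ) : ℝ) + 1) * (1 / 2) ^ s ≤ 3 := by
        push_cast
        nlinarith
      have h7 : (2 * ((s + 1 : ℕ) : ℝ) + 1) * ((1 / 2) ^ s * (1 / 2) ^ s * (1 / 32)) ≤
          1 / 2 * (H * (1 / 2) ^ s) := by
        have h8 : (2 * ((s + 1 : ℕ) : ℝ) + 1) * ((1 / 2) ^ s * (1 / 2) ^ s * (1 / 32)) =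
          ((2 * ((s + 1 : ℕ) : ℝ) + 1) * (1 / 2) ^ s) * ((1 / 2) ^ s * (1 / 32)) := by ring
        rw [h8]
        have h9 : ((2 * ((s + 1 : ℕ) : ℝ) + 1) * (1 / 2) ^ s) * ((1 / 2) ^ s * (1 / 32)) ≤
          3 * ((1 / 2) ^ s * (1 / 32)) := mul_le_mul_of_nonneg_right h6 (by positivity)
        nlinarith
      calc (2 * ((s + 1 : ℕ) : ℝ) + 1) * (uu w * ((1 / 2) ^ s * (1 / 2) ^ s * (1 / 32))) =
          uu w * ((2 * ((s + 1 : ℕ) : ℝ) + 1) * ((1 / 2) ^ s * (1 / 2) ^ s * (1 / 32))) := by ring
        _ ≤ uu w * (1 / 2 * (H * (1 / 2) ^ s)) := mul_le_mul_of_nonneg_left h7 h5.le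
        _ = _ := by ring
    obtain ⟨t, g', h1, h2, h3, h4⟩ := hj h0 (s + 1) (2 * g) (2 * H) (2 * s + w.length + 5)
      ((2 * (R - H), c) :: L.map dbl) hrun' (by omega) (by
        rw [List.length_cons, List.length_map]
        omega) hcond
    have e2 : ((2 * H : ℕ) : ℝ) / 2 ^ (s + 1) = H / 2 ^ s := by
      rw [pow_succ]
      push_cast
      field_simp
    have e3 : GG e v T w (s + 1) = GG e v T w s := by
      rw [GG_of_run hrun', hGs, pow_succ]
      push_cast
      field_simp
    rw [e2] at h3 h4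
    rw [e3] at h3
    refine ⟨t, g', by omega, ?_, h3, ?_⟩
    · rw [h2, sc_cons, sc_one, sc_sc]
      have e4 : t - (s + 1) + 1 = t - s := by omega
      rw [e4]
      congr 2
      rw [← e4, pow_succ]
      simp only [Prod.mk.injEq, and_true]
      ring
    · refine le_trans ?_ (EE_mono_left BB_mono dd_mono mm_nonneg (show s ≤ s + 1 by omega))
      refine le_trans ?_ h4
      refine mul_le_mul_of_nonneg_left ?_ (Nat.cast_nonneg _)
      have := Mass_add (m := mm e) BB_mono (show s ≤ s + 1 by omega) h1.le (B := BB e w)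
      have h5 := Mass_nonneg (B := BB e w) (m := mm e) mm_nonneg s (s + 1)
      have h6 := uu_pos (w := w)
      have h7 : 0 ≤ uu w / 4 * Mass (BB e w) (mm e) s (s + 1) := by positivity
      rw [this]
      linarith

end Q217.CO
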