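import Pool.Agent.Q217.CO.Level

set_option autoImplicit false

/-! The slots of all levels are completed. -/

namespace Q217.CO

open Classical MeasureTheory

variable {e : ℕ → Option (List Bool × List Bool)} {v : ℕ → Option (List Bool)}
  {T : ℕ → Option (ℕ × ℕ × ℕ × ℕ)} {w : List Bool}

theorem VV_open (c : ℕ) : IsOpen (VV T c) := by
  rw [isOpen_iff_mem_nhds]
  rintro x ⟨i, n, a, b, h1, h2, h3⟩
  refine Filter.mem_of_superset (Ioo_mem_nhds h2 h3) ?_
  intro y hy
  exact ⟨i, n, a, b, h1, hy.1, hy.2⟩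

/-- The allowance is eventually bounded below. -/
def Good (e : ℕ → Option (List Bool × List Bool)) (v : ℕ → Option (List Bool))
    (T : ℕ → Option (ℕ × ℕ × ℕ × ℕ)) (w : List Bool) : Prop :=
  ∀ c, ∃ κ : ℝ, 0 < κ ∧ ∃ t0, ∀ t, t0 ≤ t → κ ≤ (HN e v T w t (run e v T w t).1 c : ℝ) / 2 ^ t

theorem lev_succ {j : ℕ} (hj : 1 ≤ j → Lev e v T w j)
    (hV : ∀ c, volume (VV T c) ≤ ENNReal.ofReal ((1 / 2) ^ c)) (hg : Good e v T w) :
    Lev e v T w (j + 1) := by
  intro S g0 a c L hS ha hL hcond
  obtain ⟨κ, hκ, t0, ht0⟩ := hg c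
  have hP := pot_volume (VV_open (T := T) c).measurableSet
    (show (0 : ℝ) ≤ (1 / 2) ^ c by positivity) (hV c)
  obtain ⟨F, hFdef⟩ : ∃ F : ℝ → ℝ, F = fun z => (volume (VV T c ∩ Set.Icc 0 z)).toReal :=
    ⟨_, rfl⟩
  rw [← hFdef] at hP
  set δ : ℝ := (1 / 2) ^ c with hδ
  have hu := uu_pos (w := w)
  have hu1 := uu_le (w := w)
  set u := uu w with hudef
  let Inv : ℕ → ℕ → Prop := fun s R => S ≤ s ∧ (∃ g, run e v T w s = (g, (R, c) :: sc (s - S) L)) ∧
    GG e v T w s + (R : ℝ) / 2 ^ s = GG e v T w S + (a : ℝ) / 2 ^ S ∧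
    (j : ℝ) * (1 / 2 * u * (GG e v T w s - GG e v T w S) - u / 4 * Mass (BB e w) (mm e) S s) +
      u * (GG e v T w s - GG e v T w S) - (F (fv e v T w s) - F (fv e v T w S)) -
      u / 4 * Mass (BB e w) (mm e) S s - 2 * (KK (BB e w) (dd e v) S s : ℝ) * δ ≤
      EE (BB e w) (dd e v) (mm e) S s
  have hinit : Inv S a := by
    refine ⟨le_rfl, ⟨g0, by rw [Nat.sub_self, sc_zero]; exact hS⟩, rfl, ?_⟩
    have h1 : Mass (BB e w) (mm e) S S = 0 := by simp [Mass]
    have h2 : EE (BB e w) (dd e v) (mm e) S S = 0 := by simp [EE]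
    have h3 : KK (BB e w) (dd e v) S S = 0 := by
      simp [KK, Finset.filter_eq_empty_iff]
    rw [h1, h2, h3]
    simp
  -- one step of progress
  have prog : ∀ s R, Inv s R → 1 ≤ R → ∃ s' R', s < s' ∧ Inv s' R' ∧
      GG e v T w s + ((min R (HN e v T w s (run e v T w s).1 c) : ℕ) : ℝ) / 2 ^ s ≤
        GG e v T w s' := by
    intro s R hI hR
    obtain ⟨hSs, ⟨g, hrun⟩, hsum, hineq⟩ := hI
    have hg' : (run e v T w s).1 = g := by rw [hrun]
    rcases Nat.eq_zero_or_pos (HN e v T w s g c) with h0 | h0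
    · -- waiting
      have hR0 : R ≠ 0 := by omega
      have hmin : min R (HN e v T w s g c) = 0 := by rw [h0]; simp
      have hr := run_succ e v T w s
      rw [hrun] at hr
      unfold step at hr
      dsimp only at hr
      rw [if_neg hR0, if_pos hmin] at hr
      have hr' : run e v T w (s + 1) = (2 * g, (2 * R, c) :: sc (s + 1 - S) L) := by
        rw [hr, List.map_cons, sc_dbl]
        have e4 : s + 1 - S = s - S + 1 := by omega
        rw [e4]
        rfl
      have hG : GG e v T w (s + 1) = GG e v T w s := by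
        rw [GG_of_run hr', GG_of_run hrun, pow_succ]
        push_cast
        field_simp
      refine ⟨s + 1, 2 * R, by omega, ⟨by omega, ⟨2 * g, hr'⟩, ?_, ?_⟩, ?_⟩
      · rw [hG, ← hsum, pow_succ]
        push_cast
        field_simp
      · have h3 := step_ineq (B := BB e w) (dead := dd e v) (m := mm e) (G := GG e v T w)
          BB_mono dd_mono mm_nonneg hP hu.le hu1 hSs (show s ≤ s + 1 by omega)
          (fv_nonneg s) (fv_nonneg (s + 1)) (GG_succ s) (Or.inl hG)
        have hM := Mass_add (m := mm e) (B := BB e w) BB_mono hSs (show s ≤ s + 1 by omega)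
        have hE := EE_nonneg (B := BB e w) (dead := dd e v) (m := mm e) mm_nonneg s (s + 1)
        have hMn := Mass_nonneg (B := BB e w) (m := mm e) mm_nonneg s (s + 1)
        have h4 : 0 ≤ (j : ℝ) * (u / 4 * Mass (BB e w) (mm e) s (s + 1)) := by positivity
        change EE (BB e w) (dd e v) (mm e) S s + EE (BB e w) (dd e v) (mm e) s (s + 1) +
          u * (GG e v T w (s + 1) - GG e v T w s) - (F (fv e v T w (s + 1)) - F (fv e v T w s)) -
          u / 4 * Mass (BB e w) (mm e) s (s + 1) -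
          2 * ((KK (BB e w) (dd e v) S (s + 1) : ℝ) - KK (BB e w) (dd e v) S s) * δ ≤
          EE (BB e w) (dd e v) (mm e) S (s + 1) at h3
        rw [hG] at h3 ⊢
        rw [hM]
        have h5 : (j : ℝ) * (1 / 2 * u * (GG e v T w s - GG e v T w S) - u / 4 *
            (Mass (BB e w) (mm e) S s + Mass (BB e w) (mm e) s (s + 1))) =
            (j : ℝ) * (1 / 2 * u * (GG e v T w s - GG e v T w S) - u / 4 *
            Mass (BB e w) (mm e) S s) - (j : ℝ) * (u / 4 * Mass (BB e w) (mm e) s (s + 1)) := by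
          ring
        rw [h5]
        linarith
      · rw [hg', hmin, hG]
        simp
    · -- a sub-slot
      obtain ⟨t, g', h1, h2, h3, h4⟩ := trans_lemma hj hrun hR h0 (by
        rw [sc_length]; omega)
      obtain ⟨r, hr1, hr2, hr3⟩ := HN_spec (e := e) (v := v) (T := T) (w := w) (t := s) (c := c)
        (by rw [hg']; exact h0)
      rw [hg'] at hr3 ⊢
      set H := min R (HN e v T w s g c) with hH
      have hHR : H ≤ R := min_le_left _ _
      refine ⟨t, 2 ^ (t - s) * (R - H), h1, ⟨by omega, ⟨g', ?_⟩, ?_, ?_⟩, h3.ge⟩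
      · rw [h2, sc_sc]
        congr 3
        omega
      · rw [h3, ← hsum]
        have e1 : (2 : ℝ) ^ t = 2 ^ (t - s) * 2 ^ s := by
          rw [← pow_add]
          congr 1
          omega
        have e2 : (((2 ^ (t - s) * (R - H) : ℕ)) : ℝ) / 2 ^ t = ((R : ℝ) - H) / 2 ^ s := by
          rw [e1]
          push_cast [Nat.cast_sub hHR]
          field_simp
        rw [e2]
        ring
      · have hGd : GG e v T w t - GG e v T w s = (H : ℝ) / 2 ^ s := by rw [h3]; ring
        have hHle : (H : ℝ) / 2 ^ s ≤ (HN e v T w s g c : ℝ) / 2 ^ s :=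
          div_le_div_of_nonneg_right (by exact_mod_cast min_le_right _ _) (by positivity)
        have h5 := step_ineq (B := BB e w) (dead := dd e v) (m := mm e) (G := GG e v T w)
          BB_mono dd_mono mm_nonneg hP hu.le hu1 hSs h1.le
          (fv_nonneg s) (fv_nonneg t) (GG_mono h1.le) (Or.inr ⟨r, hr1, hr2, by
            rw [hGd]; exact hHle.trans hr3⟩)
        change EE (BB e w) (dd e v) (mm e) S s + EE (BB e w) (dd e v) (mm e) s t +
          u * (GG e v T w t - GG e v T w s) - (F (fv e v T w t) - F (fv e v T w s)) -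
          u / 4 * Mass (BB e w) (mm e) s t -
          2 * ((KK (BB e w) (dd e v) S t : ℝ) - KK (BB e w) (dd e v) S s) * δ ≤
          EE (BB e w) (dd e v) (mm e) S t at h5
        have hM := Mass_add (m := mm e) (B := BB e w) BB_mono hSs h1.le
        rw [← hGd] at h4
        rw [hM]
        have h6 : (j : ℝ) * (1 / 2 * u * (GG e v T w t - GG e v T w S) - u / 4 *
            (Mass (BB e w) (mm e) S s + Mass (BB e w) (mm e) s t)) =
            (j : ℝ) * (1 / 2 * u * (GG e v T w s - GG e v T w S) - u / 4 *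
            Mass (BB e w) (mm e) S s) + (j : ℝ) * (1 / 2 * u * (GG e v T w t - GG e v T w s) -
            u / 4 * Mass (BB e w) (mm e) s t) := by
          ring
        rw [h6]
        linarith
  -- the slot is completed
  have hfin : ∃ s, Inv s 0 := by
    by_contra hno
    push Not at hno
    have hR1 : ∀ s R, Inv s R → 1 ≤ R := by
      intro s R hI
      rcases Nat.eq_zero_or_pos R with h | h
      · rw [h] at hI
        exact absurd hI (hno s)
      · exact h
    have late : ∀ k, ∃ s R, k ≤ s ∧ Inv s R := by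
      intro k
      induction k with
      | zero => exact ⟨S, a, Nat.zero_le _, hinit⟩
      | succ k ih =>
        obtain ⟨s, R, h1, h2⟩ := ih
        obtain ⟨s', R', h3, h4, _⟩ := prog s R h2 (hR1 s R h2)
        exact ⟨s', R', by omega, h4⟩
    have grow : ∀ n : ℕ, ∃ s R, t0 ≤ s ∧ Inv s R ∧ n * κ ≤ GG e v T w s := by
      intro n
      induction n with
      | zero =>
        obtain ⟨s, R, h1, h2⟩ := late t0
        refine ⟨s, R, h1, h2, ?_⟩
        rw [Nat.cast_zero, zero_mul]
        exact GG_nonneg s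
      | succ n ih =>
        obtain ⟨s, R, h1, h2, h3⟩ := ih
        obtain ⟨s', R', h4, h5, h6⟩ := prog s R h2 (hR1 s R h2)
        refine ⟨s', R', by omega, h5, ?_⟩
        have hk := ht0 s h1
        rcases le_total (HN e v T w s (run e v T w s).1 c) R with h | h
        · rw [min_eq_right h] at h6
          push_cast
          linarith
        · -- everything is spent, so the slot ends
          exfalso
          rw [min_eq_left h] at h6
          have h7 := h2.2.2.1
          have h8 := h5.2.2.1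
          have h9 : (R' : ℝ) / 2 ^ s' ≤ 0 := by linarith
          have h10 : (1 : ℝ) ≤ R' := by exact_mod_cast hR1 s' R' h5
          have : (0 : ℝ) < (R' : ℝ) / 2 ^ s' := by positivity
          linarith
    obtain ⟨n, hn⟩ := exists_nat_gt (1 / κ)
    obtain ⟨s, R, _, _, h3⟩ := grow n
    have h4 := GG_le (e := e) (v := v) (T := T) (w := w) s
    rw [div_lt_iff₀ hκ] at hn
    linarith
  obtain ⟨s, hSs, ⟨g, hrun⟩, hsum, hineq⟩ := hfin
  have hG0 : GG e v T w s - GG e v T w S = (a : ℝ) / 2 ^ S := by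
    rw [Nat.cast_zero, zero_div, add_zero] at hsum
    rw [hsum]
    ring
  have hr := run_succ e v T w s
  rw [hrun] at hr
  unfold step at hr
  dsimp only at hr
  rw [if_pos rfl, sc_dbl] at hr
  have hG : GG e v T w (s + 1) = GG e v T w s := by
    rw [GG_of_run hr, GG_of_run hrun, pow_succ]
    push_cast
    field_simp
  refine ⟨s + 1, 2 * g, by omega, ?_, ?_, ?_⟩
  · rw [hr]
    congr 2
    omega
  · rw [hG, ← hG0]
    ring
  · have hE := EE_add (m := mm e) (B := BB e w) (dead := dd e v) BB_mono dd_mono mm_nonneg hSs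
      (show s ≤ s + 1 by omega)
    have hE1 := EE_nonneg (B := BB e w) (dead := dd e v) (m := mm e) mm_nonneg s (s + 1)
    have hE2 := DD_nonneg (B := BB e w) (dead := dd e v) (m := mm e) mm_nonneg S s (s + 1)
    have hM := Mass_add (m := mm e) (B := BB e w) BB_mono hSs (show s ≤ s + 1 by omega)
    have hMn := Mass_nonneg (B := BB e w) (m := mm e) mm_nonneg s (s + 1)
    rw [hG0] at hineq
    have hF1 := hP.le (fv e v T w s)
    have hF2 := hP.nonneg (fv e v T w S)
    have hKS : (KK (BB e w) (dd e v) S s : ℝ) ≤ S := by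
      have h1 : KK (BB e w) (dd e v) S s ≤ S :=
        (Finset.card_filter_le _ _).trans (card_BB S)
      exact_mod_cast h1
    have hδ0 : 0 ≤ δ := by positivity
    have hKδ : 2 * (KK (BB e w) (dd e v) S s : ℝ) * δ ≤ 2 * (S : ℝ) * δ :=
      mul_le_mul_of_nonneg_right (by linarith) hδ0
    have hcond' : 2 * (S : ℝ) * δ + δ ≤ 1 / 2 * u * ((a : ℝ) / 2 ^ S) := by
      have : (2 * (S : ℝ) + 1) * δ = 2 * (S : ℝ) * δ + δ := by ring
      linarith
    rw [hM]
    push_cast
    have h6 : ((j : ℝ) + 1) * (1 / 2 * u * ((a : ℝ) / 2 ^ S) - u / 4 *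
        (Mass (BB e w) (mm e) S s + Mass (BB e w) (mm e) s (s + 1))) =
        (j : ℝ) * (1 / 2 * u * ((a : ℝ) / 2 ^ S) - u / 4 * Mass (BB e w) (mm e) S s) +
        (1 / 2 * u * ((a : ℝ) / 2 ^ S) - u / 4 * Mass (BB e w) (mm e) S s) -
        ((j : ℝ) + 1) * (u / 4 * Mass (BB e w) (mm e) s (s + 1)) := by ring
    rw [h6]
    have h7 : 0 ≤ ((j : ℝ) + 1) * (u / 4 * Mass (BB e w) (mm e) s (s + 1)) := by positivity
    linarith

theorem lev_all (hV : ∀ c, volume (VV T c) ≤ ENNReal.ofReal ((1 / 2) ^ c))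
    (hg : Good e v T w) (j : ℕ) : Lev e v T w (j + 1) := by
  induction j with
  | zero => exact lev_succ (fun h => absurd h (by norm_num)) hV hg
  | succ j ih => exact lev_succ (fun _ => ih) hV hg

/-- The contradiction. -/
theorem contradiction (hV : ∀ c, volume (VV T c) ≤ ENNReal.ofReal ((1 / 2) ^ c))
    (hg : Good e v T w) (hkraft : ∀ t, ∑ i ∈ BB e w t, mm e i ≤ 1) : False := by
  have h := lev_all (e := e) (v := v) (w := w) hV hg (2 ^ (w.length + 2)) 0 0 1 (w.length + 5) []
    (run_zero e v T w) le_rfl (by rw [List.length_nil]; unfold JJ; omega) (by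
      unfold uu
      rw [pow_add]
      have : (0 : ℝ) < (1 / 2) ^ w.length := by positivity
      norm_num
      linarith)
  obtain ⟨t, g', -, -, -, h4⟩ := h
  have h5 := (EE_le (B := BB e w) (dead := dd e v) mm_nonneg 0 t).trans (hkraft t)
  have h6 : Mass (BB e w) (mm e) 0 t ≤ 1 := by
    refine le_trans ?_ (hkraft t)
    exact Finset.sum_le_sum_of_subset_of_nonneg Finset.sdiff_subset fun i _ _ => mm_nonneg i
  have hu := uu_pos (w := w)
  have h7 : (2 : ℝ) ^ (w.length + 2) * uu w = 4 := by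
    unfold uu
    rw [pow_add, one_div, inv_pow]
    field_simp
    norm_num
  have h8 : uu w / 4 ≤ 1 / 2 * uu w * (((1 : ℕ) : ℝ) / 2 ^ 0) -
      uu w / 4 * Mass (BB e w) (mm e) 0 t := by
    have : uu w / 4 * Mass (BB e w) (mm e) 0 t ≤ uu w / 4 * 1 :=
      mul_le_mul_of_nonneg_left h6 (by positivity)
    norm_num
    linarith
  have h9 : (((2 ^ (w.length + 2) + 1 : ℕ)) : ℝ) * (uu w / 4) ≤ 1 :=
    (mul_le_mul_of_nonneg_left h8 (Nat.cast_nonneg _)).trans (h4.trans h5)
  push_cast at h9
  nlinarith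

end Q217.CO
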