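import Pool.Agent.Q217.CO.Level2
import Pool.Agent.Q217.CO.Enum

set_option autoImplicit false

/-! The machine is prefix-free, and the value converges. -/

namespace Q217.CO

open Classical MeasureTheory Filter Topology
open Pool.Agent.Helper444.CKGame (num num_append num_lt num_inj exists_num kraft)

variable {e : ℕ → Option (List Bool × List Bool)} {v : ℕ → Option (List Bool)}
  {T : ℕ → Option (ℕ × ℕ × ℕ × ℕ)} {w : List Bool}

theorem mem_SM {x0 y x : List Bool} : x ∈ SM e v T x0 y ↔
    inDom e v T (guess y) (y.drop (y.idxOf false + 1)) ∧ x = x0 := by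
  unfold SM
  by_cases h : inDom e v T (guess y) (y.drop (y.idxOf false + 1))
  · simp [h]
  · simp [h]

theorem dom_SM {x0 y : List Bool} : (SM e v T x0 y).Dom ↔
    inDom e v T (guess y) (y.drop (y.idxOf false + 1)) := by
  rw [Part.dom_iff_mem]
  simp [mem_SM]

theorem run_mono' (s k : ℕ) : 2 ^ k * (run e v T w s).1 ≤ (run e v T w (s + k)).1 := by
  induction k with
  | zero => simp
  | succ k ih =>
    have h := run_mono (e := e) (v := v) (T := T) (w := w) (s + k)
    rw [← Nat.add_assoc]
    rw [pow_succ]
    calc 2 ^ k * 2 * (run e v T w s).1 = 2 * (2 ^ k * (run e v T w s).1) := by ring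
      _ ≤ 2 * (run e v T w (s + k)).1 := Nat.mul_le_mul_left _ ih
      _ ≤ _ := h

theorem inDom_prefix {p z : List Bool} (h1 : inDom e v T w p) (h2 : inDom e v T w (p ++ z)) :
    z = [] := by
  by_contra hz
  obtain ⟨k, hk⟩ : ∃ k, z.length = k + 1 :=
    Nat.exists_eq_succ_of_ne_zero (fun h => hz (List.length_eq_zero_iff.1 h))
  have a1 := h1.2.2
  have a2 := h2.2.1
  rw [num_append, List.length_append, hk] at a2
  have e1 : p.length + (k + 1) - 1 = p.length + k := by omega
  rw [e1] at a2
  have h3 := run_mono' (e := e) (v := v) (T := T) (w := w) p.length k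
  have h4 := num_lt z
  rw [hk] at h4
  have h5 : 2 * (2 ^ k * (run e v T w p.length).1) ≤ 2 * (run e v T w (p.length + k)).1 :=
    Nat.mul_le_mul_left _ h3
  have h6 : 2 ^ (k + 1) * (num p + 1) ≤ 2 ^ (k + 1) * (run e v T w p.length).1 :=
    Nat.mul_le_mul_left _ a1
  have h7 : 2 ^ (k + 1) * (run e v T w p.length).1 =
      2 * (2 ^ k * (run e v T w p.length).1) := by
    rw [pow_succ]; ring
  have h8 : 2 ^ (k + 1) * (num p + 1) = 2 ^ (k + 1) * num p + 2 ^ (k + 1) := by ring
  omega

theorem prefixFree_SM (he : Primrec e) (hv : Primrec v) (hT : Primrec T) (x0 : List Bool) :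
    PrefixFreeMachine (SM e v T x0) := by
  refine ⟨partrec_SM he hv hT x0, ?_⟩
  rintro y _ hy hy' ⟨z, rfl⟩
  rw [dom_SM] at hy hy'
  have hmem : false ∈ y := by
    by_contra hcon
    have h1 : y.idxOf false = y.length := List.idxOf_eq_length_iff.2 hcon
    have h2 := hy.1
    rw [h1] at h2
    apply h2
    rw [List.drop_eq_nil_iff]
    omega
  have hidx : (y ++ z).idxOf false = y.idxOf false := List.idxOf_append_of_mem hmem
  have hlt : y.idxOf false < y.length := List.idxOf_lt_length_iff.2 hmem
  have htake : (y ++ z).take (y.idxOf false + 1) = y.take (y.idxOf false + 1) :=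
    List.take_append_of_le_length (by omega)
  have hdrop : (y ++ z).drop (y.idxOf false + 1) = y.drop (y.idxOf false + 1) ++ z :=
    List.drop_append_of_le_length (by omega)
  have hg : guess (y ++ z) = guess y := by
    unfold guess
    rw [hidx, htake]
  rw [hg, hidx, hdrop] at hy'
  rw [inDom_prefix hy hy', List.append_nil]

/-- The code of the guess `σ`. -/
def codeOf (σ : List Bool) : List Bool := List.replicate (Encodable.encode σ) true ++ [false]

theorem SM_code (x0 σ p : List Bool) : SM e v T x0 (codeOf σ ++ p) =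
    ((if inDom e v T (σ ++ codeOf σ) p then some x0 else none : Option (List Bool)) :
      Part (List Bool)) := by
  have hidx : (codeOf σ ++ p).idxOf false = Encodable.encode σ := by
    unfold codeOf
    rw [List.append_assoc, List.idxOf_append_of_notMem (by simp [List.mem_replicate])]
    simp
  have hlen : (codeOf σ).length = Encodable.encode σ + 1 := by
    unfold codeOf
    simp
  have h1 : (codeOf σ ++ p).take (Encodable.encode σ + 1) = codeOf σ := by
    rw [← hlen, List.take_left]
  have h2 : (codeOf σ ++ p).drop (Encodable.encode σ + 1) = p := by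
    rw [← hlen, List.drop_left]
  have hg : guess (codeOf σ ++ p) = σ ++ codeOf σ := by
    unfold guess
    rw [hidx, h1, Encodable.encodek]
    rfl
  unfold SM
  rw [hg, hidx, h2]

/-- The mass function of the domain of the component. -/
noncomputable def kk (e : ℕ → Option (List Bool × List Bool)) (v : ℕ → Option (List Bool))
    (T : ℕ → Option (ℕ × ℕ × ℕ × ℕ)) (w p : List Bool) : ℝ :=
  if inDom e v T w p then (1 / 2) ^ p.length else 0

/-- The strings of length at most `t`. -/
noncomputable def strs (t : ℕ) : Finset (List Bool) := (List.finite_length_le Bool t).toFinset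

theorem mem_strs {t : ℕ} {p : List Bool} : p ∈ strs t ↔ p.length ≤ t := by
  unfold strs
  simp

theorem GG_eq (t : ℕ) : GG e v T w t = ∑ p ∈ strs t, kk e v T w p := by
  induction t with
  | zero =>
    have h0 : GG e v T w 0 = 0 := by
      unfold GG
      rw [run_zero]
      simp
    rw [h0]
    symm
    refine Finset.sum_eq_zero fun p hp => ?_
    rw [mem_strs, Nat.le_zero, List.length_eq_zero_iff] at hp
    unfold kk
    rw [if_neg]
    rintro ⟨h, -⟩
    exact h hp
  | succ t ih =>
    have hsplit : strs (t + 1) = strs t ∪ (strs (t + 1)).filter fun p => p.length = t + 1 := by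
      ext p
      rw [Finset.mem_union, Finset.mem_filter, mem_strs, mem_strs]
      omega
    have hdisj : Disjoint (strs t) ((strs (t + 1)).filter fun p => p.length = t + 1) := by
      rw [Finset.disjoint_left]
      intro p hp hp'
      rw [mem_strs] at hp
      rw [Finset.mem_filter] at hp'
      omega
    have hnew : (∑ p ∈ (strs (t + 1)).filter (fun p => p.length = t + 1), kk e v T w p) =
        (((run e v T w (t + 1)).1 - 2 * (run e v T w t).1 : ℕ) : ℝ) * (1 / 2) ^ (t + 1) := by
      have h1 : ∀ p ∈ (strs (t + 1)).filter (fun p => p.length = t + 1), kk e v T w p =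
          if inDom e v T w p then (1 / 2 : ℝ) ^ (t + 1) else 0 := by
        intro p hp
        rw [Finset.mem_filter] at hp
        unfold kk
        rw [hp.2]
      rw [Finset.sum_congr rfl h1, ← Finset.sum_filter, Finset.sum_const, nsmul_eq_mul]
      congr 2
      rw [← Nat.card_Ico]
      refine Finset.card_bij (fun p _ => num p) ?_ ?_ ?_
      · intro p hp
        rw [Finset.mem_filter, Finset.mem_filter] at hp
        obtain ⟨⟨_, h2⟩, _, h3, h4⟩ := hp
        rw [h2] at h3 h4
        rw [Finset.mem_Ico]
        exact ⟨h3, h4⟩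
      · intro p hp q hq hpq
        rw [Finset.mem_filter, Finset.mem_filter] at hp hq
        exact num_inj (by rw [hp.1.2, hq.1.2]) hpq
      · intro N hN
        rw [Finset.mem_Ico] at hN
        obtain ⟨q, hq, hn⟩ := exists_num (hN.2.trans_le (run_le (e := e) (v := v) (T := T)
          (w := w) (t + 1)))
        refine ⟨q, ?_, hn⟩
        rw [Finset.mem_filter, Finset.mem_filter, mem_strs]
        refine ⟨⟨hq.le, hq⟩, ?_, ?_, ?_⟩
        · rintro rfl
          simp at hq
        · rw [hq, hn]
          exact hN.1
        · rw [hq, hn]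
          exact hN.2
    rw [hsplit, Finset.sum_union hdisj, ← ih, hnew]
    unfold GG
    rw [Nat.cast_sub (run_mono t), one_div, inv_pow]
    push_cast
    rw [pow_succ]
    field_simp
    ring

theorem strs_atTop : Tendsto strs atTop atTop := by
  refine tendsto_atTop_finset_of_monotone ?_ fun p => ⟨p.length, mem_strs.2 le_rfl⟩
  intro s t hst p hp
  rw [mem_strs] at *
  omega

/-- The first component of an item. -/
def qq (e : ℕ → Option (List Bool × List Bool)) (i : ℕ) : List Bool :=
  match e i with
  | none => []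
  | some qx => qx.1

theorem kraft_items {U : List Bool →. List Bool} (hU : PrefixFreeMachine U)
    (he2 : ∀ q x, x ∈ U q ↔ ∃ n, e n = some (q, x))
    (he3 : ∀ m n q x y, e m = some (q, x) → e n = some (q, y) → m = n) (F : Finset ℕ) :
    ∑ i ∈ F, mm e i ≤ 1 := by
  have h1 : ∑ i ∈ F, mm e i = ∑ i ∈ F.filter fun i => (e i).isSome, (1 / 2 : ℝ) ^ (qq e i).length := by
    rw [Finset.sum_filter]
    refine Finset.sum_congr rfl fun i _ => ?_
    unfold mm qq
    cases h : e i with
    | none => simp
    | some qx => simp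
  rw [h1]
  have hinj : Set.InjOn (qq e) (F.filter fun i => (e i).isSome : Finset ℕ) := by
    intro i hi j hj hij
    rw [Finset.mem_coe, Finset.mem_filter] at hi hj
    obtain ⟨⟨q, x⟩, hx⟩ := Option.isSome_iff_exists.1 hi.2
    obtain ⟨⟨q', x'⟩, hx'⟩ := Option.isSome_iff_exists.1 hj.2
    unfold qq at hij
    rw [hx, hx'] at hij
    change q = q' at hij
    rw [← hij] at hx'
    exact he3 _ _ _ _ _ hx hx'
  rw [← Finset.sum_image (f := fun q : List Bool => (1 / 2 : ℝ) ^ q.length) hinj]
  refine kraft _ ?_
  have hdom : ∀ q ∈ (F.filter fun i => (e i).isSome).image (qq e), (U q).Dom := by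
    intro q hq
    obtain ⟨i, hi, rfl⟩ := Finset.mem_image.1 hq
    rw [Finset.mem_filter] at hi
    obtain ⟨⟨q, x⟩, hx⟩ := Option.isSome_iff_exists.1 hi.2
    have h2 : qq e i = q := by
      unfold qq
      rw [hx]
    rw [h2]
    exact Part.dom_iff_mem.2 ⟨x, (he2 q x).2 ⟨i, hx⟩⟩
  intro p hp q hq hpq
  exact hU.2 p q (hdom p hp) (hdom q hq) hpq

theorem summable_mm {U : List Bool →. List Bool} (hU : PrefixFreeMachine U)
    (he2 : ∀ q x, x ∈ U q ↔ ∃ n, e n = some (q, x))
    (he3 : ∀ m n q x y, e m = some (q, x) → e n = some (q, y) → m = n) : Summable (mm e) :=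
  summable_of_sum_le (c := 1) mm_nonneg (kraft_items hU he2 he3)

theorem summable_omega {U : List Bool →. List Bool} (hU : PrefixFreeMachine U)
    (X : Set (List Bool)) :
    Summable fun p : List Bool => if ∃ x ∈ X, x ∈ U p then (1 / 2 : ℝ) ^ p.length else 0 := by
  refine summable_of_sum_le (c := 1) (fun p => by positivity) fun F => ?_
  rw [← Finset.sum_filter]
  refine kraft _ ?_
  intro p hp q hq hpq
  rw [Finset.mem_filter] at hp hq
  obtain ⟨-, x, -, hx⟩ := hp
  obtain ⟨-, y, -, hy⟩ := hq
  exact hU.2 p q (Part.dom_iff_mem.2 ⟨x, hx⟩) (Part.dom_iff_mem.2 ⟨y, hy⟩) hpq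

/-- The present value converges to the halting probability. -/
theorem fv_tendsto {U : List Bool →. List Bool} (hU : PrefixFreeMachine U)
    (he2 : ∀ q x, x ∈ U q ↔ ∃ n, e n = some (q, x))
    (he3 : ∀ m n q x y, e m = some (q, x) → e n = some (q, y) → m = n)
    {X : Set (List Bool)} (hv2 : ∀ x, x ∉ X ↔ ∃ n, v n = some x) {x0 : List Bool} (hx0 : x0 ∈ X)
    (hw : ∀ p, U (w ++ p) = ((if inDom e v T w p then some x0 else none :
      Option (List Bool)) : Part (List Bool))) :
    Tendsto (fv e v T w) atTop (𝓝 (Omega U X)) := by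
  set h : List Bool → ℝ := fun p => if ∃ x ∈ X, x ∈ U p then (1 / 2 : ℝ) ^ p.length else 0 with hh
  have hs : Summable h := summable_omega hU X
  have hnn : ∀ p, 0 ≤ h p := fun p => by
    rw [hh]
    dsimp only
    positivity
  set h1 : List Bool → ℝ := fun p => if w <+: p then h p else 0 with hh1
  set h2 : List Bool → ℝ := fun p => if w <+: p then 0 else h p with hh2
  have hs1 : Summable h1 := Summable.of_nonneg_of_le (fun p => by
    rw [hh1]; dsimp only; split_ifs
    · exact hnn p
    · exact le_rfl) (fun p => by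
    rw [hh1]; dsimp only; split_ifs
    · exact le_rfl
    · exact hnn p) hs
  have hs2 : Summable h2 := Summable.of_nonneg_of_le (fun p => by
    rw [hh2]; dsimp only; split_ifs
    · exact le_rfl
    · exact hnn p) (fun p => by
    rw [hh2]; dsimp only; split_ifs
    · exact hnn p
    · exact le_rfl) hs
  have hsum : Omega U X = (∑' p, h2 p) + ∑' p, h1 p := by
    rw [← hs2.tsum_add hs1]
    refine tsum_congr fun p => ?_
    show h p = (if w <+: p then 0 else h p) + (if w <+: p then h p else 0)
    by_cases hwp : w <+: p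
    · rw [if_pos hwp, if_pos hwp, zero_add]
    · rw [if_neg hwp, if_neg hwp, add_zero]
  -- the part below `w`
  have hwp : ∀ p, h (w ++ p) = uu w * kk e v T w p := by
    intro p
    have : (∃ x ∈ X, x ∈ U (w ++ p)) ↔ inDom e v T w p := by
      rw [hw p]
      by_cases hd : inDom e v T w p
      · simp [hd, hx0]
      · simp [hd]
    show (if ∃ x ∈ X, x ∈ U (w ++ p) then (1 / 2 : ℝ) ^ (w ++ p).length else 0) = _
    unfold kk uu
    by_cases hd : inDom e v T w p
    · rw [if_pos (this.2 hd), if_pos hd, List.length_append, pow_add]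
    · rw [if_neg (fun h' => hd (this.1 h')), if_neg hd, mul_zero]
  have hinj : Function.Injective fun p : List Bool => w ++ p := fun p q hpq =>
    List.append_cancel_left hpq
  have t1 : (∑' p, h1 p) = ∑' p, uu w * kk e v T w p := by
    have hsup : Function.support h1 ⊆ Set.range fun p : List Bool => w ++ p := by
      intro p hp
      rw [Function.mem_support] at hp
      by_contra hcon
      apply hp
      show (if w <+: p then h p else 0) = 0
      rw [if_neg]
      rintro ⟨z, hz⟩
      exact hcon ⟨z, hz⟩
    rw [← hinj.tsum_eq hsup]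
    refine tsum_congr fun p => ?_
    show (if w <+: w ++ p then h (w ++ p) else 0) = _
    rw [if_pos (List.prefix_append _ _), hwp]
  have lim1 : Tendsto (fun t => uu w * GG e v T w t) atTop (𝓝 (∑' p, h1 p)) := by
    have hsk : Summable fun p => uu w * kk e v T w p := by
      have := hs.comp_injective hinj
      exact this.congr fun p => (hwp p)
    have h3 := hsk.hasSum.comp strs_atTop
    rw [← t1] at h3
    refine h3.congr fun t => ?_
    rw [Function.comp, ← Finset.mul_sum, GG_eq]
  -- the part not below `w`
  let h3 : ℕ → ℝ := fun i => match e i with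
    | none => 0
    | some qx => if qx.2 ∈ X ∧ ¬ w <+: qx.1 then (1 / 2) ^ qx.1.length else 0
  have h3some : ∀ i qx, e i = some qx → h3 i =
      if qx.2 ∈ X ∧ ¬ w <+: qx.1 then (1 / 2) ^ qx.1.length else 0 := by
    intro i qx hi
    show (match e i with
    | none => 0
    | some qx => if qx.2 ∈ X ∧ ¬ w <+: qx.1 then (1 / 2 : ℝ) ^ qx.1.length else 0) = _
    rw [hi]
  have h3none : ∀ i, e i = none → h3 i = 0 := by
    intro i hi
    show (match e i with
    | none => 0
    | some qx => if qx.2 ∈ X ∧ ¬ w <+: qx.1 then (1 / 2 : ℝ) ^ qx.1.length else 0) = _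
    rw [hi]
  have hsupp : ∀ i, h3 i ≠ 0 → ∃ q x, e i = some (q, x) ∧ x ∈ X ∧ ¬ w <+: q := by
    intro i hi
    cases hei : e i with
    | none => exact absurd (h3none i hei) hi
    | some qx =>
      rw [h3some i qx hei] at hi
      by_cases hc : qx.2 ∈ X ∧ ¬ w <+: qx.1
      · exact ⟨qx.1, qx.2, rfl, hc⟩
      · rw [if_neg hc] at hi
        exact absurd rfl hi
  have t2 : (∑' p, h2 p) = ∑' i, h3 i := by
    refine tsum_eq_tsum_of_ne_zero_bij (fun i : Function.support h3 => qq e i.1) ?_ ?_ ?_
    · rintro ⟨i, hi⟩ ⟨j, hj⟩ hij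
      obtain ⟨q, x, hq, -⟩ := hsupp i hi
      obtain ⟨q', x', hq', -⟩ := hsupp j hj
      have hij' : qq e i = qq e j := hij
      unfold qq at hij'
      rw [hq, hq'] at hij'
      change q = q' at hij'
      rw [← hij'] at hq'
      exact Subtype.ext (he3 _ _ _ _ _ hq hq')
    · intro p hp
      rw [Function.mem_support] at hp
      have hp' : (if w <+: p then 0 else if ∃ x ∈ X, x ∈ U p then (1 / 2 : ℝ) ^ p.length else 0) ≠ 0 := hp
      by_cases hwp' : w <+: p
      · rw [if_pos hwp'] at hp'
        exact absurd rfl hp'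
      · rw [if_neg hwp'] at hp'
        by_cases hx : ∃ x ∈ X, x ∈ U p
        · obtain ⟨x, hxX, hxU⟩ := hx
          obtain ⟨n, hn⟩ := (he2 p x).1 hxU
          refine ⟨⟨n, ?_⟩, ?_⟩
          · rw [Function.mem_support, h3some n _ hn, if_pos ⟨hxX, hwp'⟩]
            positivity
          · show qq e n = p
            unfold qq
            rw [hn]
        · rw [if_neg hx] at hp'
          exact absurd rfl hp'
    · rintro ⟨i, hi⟩
      obtain ⟨q, x, hq, hxX, hwq⟩ := hsupp i hi
      have hqq : qq e i = q := by
        unfold qq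
        rw [hq]
      show (if w <+: qq e i then 0 else if ∃ x ∈ X, x ∈ U (qq e i) then
        (1 / 2 : ℝ) ^ (qq e i).length else 0) = h3 i
      rw [hqq, if_neg hwq, if_pos ⟨x, hxX, (he2 q x).2 ⟨i, hq⟩⟩, h3some i _ hq,
        if_pos ⟨hxX, hwq⟩]
  have lim2 : Tendsto (fun t => AA (BB e w) (dd e v) (mm e) t) atTop (𝓝 (∑' p, h2 p)) := by
    rw [t2]
    have hA : ∀ t, AA (BB e w) (dd e v) (mm e) t =
        ∑' i, if i ∈ BB e w t then (if dd e v i t then 0 else mm e i) else 0 := by
      intro t
      unfold AA
      rw [tsum_eq_sum (s := BB e w t) (fun i hi => if_neg hi)]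
      exact Finset.sum_congr rfl fun i hi => (if_pos hi).symm
    simp only [hA]
    refine tendsto_tsum_of_dominated_convergence (bound := mm e) (summable_mm hU he2 he3) ?_ ?_
    · intro i
      cases hei : e i with
      | none =>
        rw [h3none i hei]
        refine tendsto_const_nhds.congr fun t => ?_
        rw [if_neg]
        intro hi
        unfold BB at hi
        rw [Finset.mem_filter] at hi
        obtain ⟨-, qx, h4, -⟩ := hi
        rw [hei] at h4
        exact absurd h4 (by simp)
      | some qx =>
        rw [h3some i qx hei]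
        have hpre : w <+: qx.1 ↔ qx.1.take w.length = w := by
          rw [List.prefix_iff_eq_take, eq_comm]
        have hBi : ∀ t, i ∈ BB e w t ↔ i < t ∧ qx.1.length ≤ t ∧ ¬ w <+: qx.1 := by
          intro t
          unfold BB
          rw [Finset.mem_filter, Finset.mem_range, hpre]
          constructor
          · rintro ⟨h4, qx', h5, h6⟩
            rw [hei] at h5
            rw [Option.some_injective _ h5]
            exact ⟨h4, h6⟩
          · rintro ⟨h4, h5⟩
            exact ⟨h4, qx, hei, h5⟩
        have hDi : ∀ t, dd e v i t ↔ ∃ j < t, v j = some qx.2 := by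
          intro t
          unfold dd
          constructor
          · rintro ⟨qx', h5, h6⟩
            rw [hei] at h5
            rw [Option.some_injective _ h5]
            exact h6
          · intro h5
            exact ⟨qx, hei, h5⟩
        have hmi : mm e i = (1 / 2) ^ qx.1.length := by
          unfold mm
          rw [hei]
        by_cases hwq : w <+: qx.1
        · rw [if_neg (fun h' => h'.2 hwq)]
          refine tendsto_const_nhds.congr fun t => ?_
          rw [if_neg (fun h' => ((hBi t).1 h').2.2 hwq)]
        · by_cases hX : qx.2 ∈ X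
          · rw [if_pos ⟨hX, hwq⟩]
            refine tendsto_const_nhds.congr' ?_
            filter_upwards [eventually_ge_atTop (i + 1), eventually_ge_atTop qx.1.length]
              with t h4 h5
            rw [if_pos ((hBi t).2 ⟨h4, h5, hwq⟩), if_neg, hmi]
            rw [hDi]
            rintro ⟨j, -, hj⟩
            exact (hv2 qx.2).2 ⟨j, hj⟩ hX
          · rw [if_neg (fun h' => hX h'.1)]
            obtain ⟨j, hj⟩ := (hv2 qx.2).1 hX
            refine tendsto_const_nhds.congr' ?_
            filter_upwards [eventually_ge_atTop (j + 1)] with t h4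
            rw [if_pos (show dd e v i t from (hDi t).2 ⟨j, h4, hj⟩)]
            simp
    · refine Eventually.of_forall fun t i => ?_
      rw [Real.norm_eq_abs]
      split_ifs
      · rw [abs_zero]; exact mm_nonneg i
      · rw [abs_of_nonneg (mm_nonneg i)]
      · rw [abs_zero]; exact mm_nonneg i
  rw [hsum]
  exact lim2.add lim1

/-- The allowance is eventually large. -/
theorem good_of_tendsto {α : ℝ} (hlim : Tendsto (fv e v T w) atTop (𝓝 α))
    (hα : ∀ c, α ∈ VV T c) : Good e v T w := by
  intro c
  obtain ⟨i, n, a, b, hT, ha, hb⟩ := hα c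
  set δ : ℝ := ((b : ℝ) / 2 ^ n - α) / 2 with hδ
  have hδ0 : 0 < δ := by rw [hδ]; linarith
  have hm : Tendsto (fun t : ℕ => (1 : ℝ) / 2 ^ t) atTop (𝓝 0) := by
    have := tendsto_pow_atTop_nhds_zero_of_lt_one (r := (1 / 2 : ℝ)) (by norm_num) (by norm_num)
    refine this.congr fun t => ?_
    rw [one_div, inv_pow, one_div]
  have e1 := hlim.eventually (lt_mem_nhds ha)
  have e2 := hlim.eventually (gt_mem_nhds (show α < α + δ by linarith))
  have e3 := hm.eventually (gt_mem_nhds (show (0 : ℝ) < δ / 16 by linarith))
  obtain ⟨t0, ht0⟩ := (((e1.and e2).and e3).and ((eventually_ge_atTop (i + 1)).and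
    (eventually_ge_atTop n))).exists_forall_of_atTop
  refine ⟨δ / 16, by linarith, t0, fun t ht => ?_⟩
  obtain ⟨⟨⟨h1, h2⟩, h3⟩, h4, h5⟩ := ht0 t ht
  have h6 : fv e v T w t < (b : ℝ) / 2 ^ n := by linarith
  have h7 := HN_lower (e := e) (v := v) (T := T) (w := w) (by omega) hT h5 h1 h6
  have h8 : δ ≤ (b : ℝ) / 2 ^ n - fv e v T w t := by linarith
  linarith

end Q217.CO
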