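import Pool.Agent.Q217.CO.Mach

set_option autoImplicit false

/-! The main theorem. -/

namespace Q217.CO

open Classical MeasureTheory Filter Topology
open Pool.Agent.Helper626.Rand (MLRandom IsMLTest comp dyadic)

/-- A test with `α` in the interior of the intervals. -/
theorem convert_test {α : ℝ} (hα : 0 < α) {W : ℕ → ℕ → ℕ → Prop} (hW : IsMLTest W)
    (hin : ∀ k, α ∈ comp W k) : ∃ T : ℕ → Option (ℕ × ℕ × ℕ × ℕ), Primrec T ∧
      (∀ c, volume (VV T c) ≤ ENNReal.ofReal ((1 / 2) ^ c)) ∧ ∀ c, α ∈ VV T c := by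
  by_cases hd : ∃ A N : ℕ, α = (A : ℝ) / 2 ^ N
  · obtain ⟨A, N, hA⟩ := hd
    have hA1 : 1 ≤ A := by
      rcases Nat.eq_zero_or_pos A with h | h
      · rw [h] at hA
        rw [hA] at hα
        simp at hα
      · exact h
    let T : ℕ → Option (ℕ × ℕ × ℕ × ℕ) := fun i =>
      some (i, N + i + 2, A * 2 ^ (i + 2) - 1, A * 2 ^ (i + 2) + 1)
    have hTp : Primrec T := by
      have hp : Primrec fun i : ℕ => A * 2 ^ (i + 2) :=
        Primrec.nat_mul.comp (Primrec.const A) (primrec_pow.comp (Primrec.const 2)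
          (Primrec.nat_add.comp Primrec.id (Primrec.const 2)))
      exact Primrec.option_some.comp (Primrec.pair Primrec.id (Primrec.pair
        (Primrec.nat_add.comp (Primrec.nat_add.comp (Primrec.const N) Primrec.id)
          (Primrec.const 2)) (Primrec.pair (Primrec.nat_sub.comp hp (Primrec.const 1))
          (Primrec.nat_add.comp hp (Primrec.const 1)))))
    have hlow : ∀ c : ℕ, ((A * 2 ^ (c + 2) - 1 : ℕ) : ℝ) / 2 ^ (N + c + 2) =
        α - (1 / 2) ^ (N + c + 2) := by
      intro c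
      have h1 : 1 ≤ A * 2 ^ (c + 2) := Nat.one_le_iff_ne_zero.2 (by positivity)
      rw [Nat.cast_sub h1, hA, one_div, inv_pow]
      push_cast
      rw [show N + c + 2 = N + (c + 2) by ring, pow_add]
      field_simp
      ring
    have hup : ∀ c : ℕ, ((A * 2 ^ (c + 2) + 1 : ℕ) : ℝ) / 2 ^ (N + c + 2) =
        α + (1 / 2) ^ (N + c + 2) := by
      intro c
      rw [hA, one_div, inv_pow]
      push_cast
      rw [show N + c + 2 = N + (c + 2) by ring, pow_add]
      field_simp
      ring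
    refine ⟨T, hTp, fun c => ?_, fun c => ?_⟩
    · have hsub : VV T c ⊆ Set.Ioo (α - (1 / 2) ^ (N + c + 2)) (α + (1 / 2) ^ (N + c + 2)) := by
        rintro x ⟨i, n, a, b, hT, h1, h2⟩
        have h3 : (i, N + i + 2, A * 2 ^ (i + 2) - 1, A * 2 ^ (i + 2) + 1) = (c, n, a, b) :=
          Option.some_injective _ hT
        rw [Prod.mk.injEq, Prod.mk.injEq, Prod.mk.injEq] at h3
        obtain ⟨rfl, rfl, rfl, rfl⟩ := h3
        rw [hlow] at h1
        rw [hup] at h2
        exact ⟨h1, h2⟩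
      refine (measure_mono hsub).trans ?_
      rw [Real.volume_Ioo]
      refine ENNReal.ofReal_le_ofReal ?_
      have h4 : (1 / 2 : ℝ) ^ (N + c + 2) = (1 / 2) ^ N * (1 / 2) ^ c * (1 / 4) := by
        rw [pow_add, pow_add]
        norm_num
      have h5 : (1 / 2 : ℝ) ^ N ≤ 1 := pow_le_one₀ (by norm_num) (by norm_num)
      have h6 : (0 : ℝ) < (1 / 2) ^ c := by positivity
      rw [h4]
      nlinarith
    · refine ⟨c, _, _, _, rfl, ?_, ?_⟩
      · rw [hlow]
        have : (0 : ℝ) < (1 / 2) ^ (N + c + 2) := by positivity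
        linarith
      · rw [hup]
        have : (0 : ℝ) < (1 / 2) ^ (N + c + 2) := by positivity
        linarith
  · obtain ⟨v0, hv0, hv0'⟩ := enum_re hW.1
    let T : ℕ → Option (ℕ × ℕ × ℕ × ℕ) := fun i => (v0 i).map fun p =>
      (p.1, p.2.1, p.2.2, p.2.2 + 1)
    have hTp : Primrec T := by
      refine Primrec.option_map hv0 (Primrec₂.mk ?_)
      exact Primrec.pair (Primrec.fst.comp Primrec.snd) (Primrec.pair
        (Primrec.fst.comp (Primrec.snd.comp Primrec.snd)) (Primrec.pair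
        (Primrec.snd.comp (Primrec.snd.comp Primrec.snd))
        (Primrec.succ.comp (Primrec.snd.comp (Primrec.snd.comp Primrec.snd)))))
    have hT : ∀ c n a b, (∃ i, T i = some (c, n, a, b)) ↔ W c n a ∧ b = a + 1 := by
      intro c n a b
      constructor
      · rintro ⟨i, hi⟩
        obtain ⟨⟨c', n', a'⟩, h1, h2⟩ := Option.map_eq_some_iff.1 hi
        rw [Prod.mk.injEq, Prod.mk.injEq, Prod.mk.injEq] at h2
        obtain ⟨rfl, rfl, rfl, rfl⟩ := h2
        exact ⟨(hv0' (c', n', a')).2 ⟨i, h1⟩, rfl⟩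
      · rintro ⟨h1, rfl⟩
        obtain ⟨i, hi⟩ := (hv0' (c, n, a)).1 h1
        exact ⟨i, Option.map_eq_some_iff.2 ⟨_, hi, rfl⟩⟩
    refine ⟨T, hTp, fun c => ?_, fun c => ?_⟩
    · refine (measure_mono ?_).trans (hW.2 c)
      rintro x ⟨i, n, a, b, h1, h2, h3⟩
      obtain ⟨h4, rfl⟩ := (hT c n a b).1 ⟨i, h1⟩
      refine ⟨n, a, h4, h2.le, ?_⟩
      push_cast at h3
      exact h3
    · obtain ⟨n, a, h1, h2, h3⟩ := hin c
      obtain ⟨i, hi⟩ := (hT c n a (a + 1)).2 ⟨h1, rfl⟩
      refine ⟨i, n, a, a + 1, hi, lt_of_le_of_ne h2 fun h => hd ⟨a, n, h.symm⟩, ?_⟩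
      push_cast
      exact h3

/-- **Theorem.** -/
theorem main {U : List Bool →. List Bool} (hU : UniversalByAdjunction U)
    {X : Set (List Bool)} (hX : REPred fun x => x ∉ X) (hpos : 0 < Omega U X) :
    MLRandom (Omega U X) := by
  by_contra hnot
  unfold MLRandom at hnot
  push Not at hnot
  obtain ⟨W, hW, hin⟩ := hnot
  obtain ⟨T, hT, hVV, hα⟩ := convert_test hpos hW hin
  obtain ⟨x0, hx0⟩ : ∃ x0, x0 ∈ X := by
    by_contra hcon
    push Not at hcon
    have : Omega U X = 0 := by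
      unfold Omega
      rw [show (fun p : List Bool => if ∃ x ∈ X, x ∈ U p then (1 / 2 : ℝ) ^ p.length else 0) =
        fun _ => 0 from funext fun p => if_neg fun ⟨x, hx, _⟩ => hcon x hx]
      exact tsum_zero
    exact hpos.ne' this
  obtain ⟨hUm, M, σ, -, hM2, -, -, hUM⟩ := hU
  obtain ⟨e, he, he2, he3⟩ := enum_graph hUm.1
  obtain ⟨v, hv, hv2⟩ := enum_re hX
  obtain ⟨n, hn⟩ := hM2 _ (prefixFree_SM (e := e) (v := v) (T := T) he hv hT x0)
  have hw : ∀ p, U ((σ n ++ codeOf (σ n)) ++ p) =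
      ((if inDom e v T (σ n ++ codeOf (σ n)) p then some x0 else none :
        Option (List Bool)) : Part (List Bool)) := by
    intro p
    rw [List.append_assoc, hUM, hn, SM_code]
  have hlim := fv_tendsto (e := e) (v := v) (T := T) hUm he2 he3 hv2 hx0 hw
  exact contradiction (e := e) (v := v) (T := T) hVV (good_of_tendsto hlim hα)
    fun t => kraft_items hUm he2 he3 _

end Q217.CO
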