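import Mathlib
import Pool.Agent.Helper444.CKGame
import Pool.Agent.Q217.CO.Defs

set_option autoImplicit false

/-! The strategy of the proof as a primitive recursive stack machine. -/

namespace Q217.CO

open Pool.Agent.Helper444.CKGame (num num_append num_lt num_inj exists_num foldl_num)

section Prim

theorem primrec_sum {α : Type} [Primcodable α] {f : α → ℕ → ℕ} {g : α → ℕ} (hf : Primrec₂ f)
    (hg : Primrec g) : Primrec fun a => ∑ i ∈ Finset.range (g a), f a i := by
  have h : Primrec₂ fun (a : α) (p : ℕ × ℕ) => p.2 + f a p.1 :=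
    Primrec₂.mk (Primrec.nat_add.comp (Primrec.snd.comp Primrec.snd)
      (hf.comp Primrec.fst (Primrec.fst.comp Primrec.snd)))
  refine (Primrec.nat_rec' hg (Primrec.const 0) h).of_eq fun a => ?_
  induction g a with
  | zero => simp
  | succ n ih =>
    rw [Finset.sum_range_succ, ← ih]

theorem primrec_sup {α : Type} [Primcodable α] {f : α → ℕ → ℕ} {g : α → ℕ} (hf : Primrec₂ f)
    (hg : Primrec g) : Primrec fun a => (Finset.range (g a)).sup (f a) := by
  have h : Primrec₂ fun (a : α) (p : ℕ × ℕ) => max (f a p.1) p.2 :=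
    Primrec₂.mk (Primrec.nat_max.comp (hf.comp Primrec.fst (Primrec.fst.comp Primrec.snd))
      (Primrec.snd.comp Primrec.snd))
  refine (Primrec.nat_rec' hg (Primrec.const 0) h).of_eq fun a => ?_
  induction g a with
  | zero => simp
  | succ n ih =>
    rw [Finset.range_add_one, Finset.sup_insert, ← ih]

theorem primrec_pow : Primrec₂ fun a b : ℕ => a ^ b :=
  Primrec₂.unpaired'.1 Nat.Primrec.pow

theorem primrec_num : Primrec num := by
  have h : Primrec₂ fun (_ : List Bool) (p : ℕ × Bool) => 2 * p.1 + (if p.2 then 1 else 0) := by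
    refine Primrec₂.mk (Primrec.nat_add.comp (Primrec.nat_mul.comp (Primrec.const 2)
      (Primrec.fst.comp Primrec.snd)) ?_)
    exact (Primrec.dom_bool fun b : Bool => if b then 1 else 0).comp
      (Primrec.snd.comp Primrec.snd)
  exact Primrec.list_foldl Primrec.id (Primrec.const 0) h

end Prim

variable (e : ℕ → Option (List Bool × List Bool)) (v : ℕ → Option (List Bool))
  (T : ℕ → Option (ℕ × ℕ × ℕ × ℕ))

/-- The contribution of the item `i` at time `t`, in units of `2 ^ (-t)`. -/
def term (w : List Bool) (t i : ℕ) : ℕ :=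
  match e i with
  | none => 0
  | some qx => if qx.1.length ≤ t ∧ qx.1.take w.length ≠ w ∧ ¬ ∃ j < t, v j = some qx.2 then
      2 ^ (t - qx.1.length) else 0

/-- The mass of the living items at time `t`, in units of `2 ^ (-t)`. -/
def AN (w : List Bool) (t : ℕ) : ℕ := ∑ i ∈ Finset.range t, term e v w t i

/-- The present value, in units of `2 ^ (-(t + w.length))`. -/
def FN (w : List Bool) (t g : ℕ) : ℕ := AN e v w t * 2 ^ w.length + g

/-- The allowance coming from the interval `i`. -/
def hterm (w : List Bool) (t g c i : ℕ) : ℕ :=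
  match T i with
  | none => 0
  | some p => if p.1 = c ∧ p.2.1 ≤ t ∧ p.2.2.1 * 2 ^ (t + w.length - p.2.1) < FN e v w t g then
      (p.2.2.2 * 2 ^ (t + w.length - p.2.1) - FN e v w t g) / 2 ^ (w.length + 3) else 0

/-- The allowance at time `t`, in units of `2 ^ (-t)`. -/
def HN (w : List Bool) (t g c : ℕ) : ℕ := (Finset.range t).sup (hterm e v T w t g c)

/-- Doubling. -/
def dbl (p : ℕ × ℕ) : ℕ × ℕ := (2 * p.1, p.2)

/-- The number of levels. -/
def JJ (w : List Bool) : ℕ := 2 ^ (w.length + 2) + 1

/-- One step of the strategy. -/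
def step (w : List Bool) (t : ℕ) (s : ℕ × List (ℕ × ℕ)) : ℕ × List (ℕ × ℕ) :=
  match s.2 with
  | [] => (2 * s.1, [])
  | f :: L =>
    if f.1 = 0 then (2 * s.1, L.map dbl) else
      if min f.1 (HN e v T w t s.1 f.2) = 0 then (2 * s.1, (f :: L).map dbl) else
        if JJ w ≤ (f :: L).length then
          (2 * (s.1 + min f.1 (HN e v T w t s.1 f.2)),
            ((f.1 - min f.1 (HN e v T w t s.1 f.2), f.2) :: L).map dbl)
        else (2 * s.1, ((min f.1 (HN e v T w t s.1 f.2), 2 * t + w.length + 5) ::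
          (f.1 - min f.1 (HN e v T w t s.1 f.2), f.2) :: L).map dbl)

/-- The run of the strategy. -/
def run (w : List Bool) (t : ℕ) : ℕ × List (ℕ × ℕ) :=
  Nat.rec (0, [(1, w.length + 5)]) (fun t s => step e v T w t s) t

theorem run_zero (w : List Bool) : run e v T w 0 = (0, [(1, w.length + 5)]) := rfl

theorem run_succ (w : List Bool) (t : ℕ) :
    run e v T w (t + 1) = step e v T w t (run e v T w t) := rfl

section Prim2

variable {e v T}

theorem primrec_term (he : Primrec e) (hv : Primrec v) :
    Primrec fun p : (List Bool × ℕ) × ℕ => term e v p.1.1 p.1.2 p.2 := by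
  have hex0 : PrimrecRel fun (L : List ℕ) (y : List Bool) => ∃ x ∈ L, v x = some y :=
    PrimrecRel.exists_mem_list (R := fun x y => v x = some y)
      (Primrec.eq.comp (hv.comp Primrec.fst) (Primrec.option_some.comp Primrec.snd))
  have hex : PrimrecRel fun (n : ℕ) (y : List Bool) => ∃ x < n, v x = some y :=
    (hex0.comp (Primrec.list_range.comp Primrec.fst) Primrec.snd).of_eq fun p => by
      simp [List.mem_range]
  have hlen : Primrec fun a : ((List Bool × ℕ) × ℕ) × (List Bool × List Bool) =>
      a.2.1.length := Primrec.list_length.comp (Primrec.fst.comp Primrec.snd)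
  have ht : Primrec fun a : ((List Bool × ℕ) × ℕ) × (List Bool × List Bool) => a.1.1.2 :=
    Primrec.snd.comp (Primrec.fst.comp Primrec.fst)
  have hw : Primrec fun a : ((List Bool × ℕ) × ℕ) × (List Bool × List Bool) => a.1.1.1 :=
    Primrec.fst.comp (Primrec.fst.comp Primrec.fst)
  have hc : PrimrecPred fun a : ((List Bool × ℕ) × ℕ) × (List Bool × List Bool) =>
      a.2.1.length ≤ a.1.1.2 ∧ a.2.1.take a.1.1.1.length ≠ a.1.1.1 ∧
        ¬ ∃ j < a.1.1.2, v j = some a.2.2 := by
    refine PrimrecPred.and (Primrec.nat_le.comp hlen ht) (PrimrecPred.and (PrimrecPred.not ?_)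
      (PrimrecPred.not ?_))
    · exact Primrec.eq.comp (Primrec.list_take.comp (Primrec.list_length.comp hw)
        (Primrec.fst.comp Primrec.snd)) hw
    · exact hex.comp ht (Primrec.snd.comp Primrec.snd)
  have h := Primrec.option_casesOn (he.comp (Primrec.snd (α := List Bool × ℕ) (β := ℕ)))
    (Primrec.const 0) (Primrec.ite hc (primrec_pow.comp (Primrec.const 2)
      (Primrec.nat_sub.comp ht hlen)) (Primrec.const 0)).to₂
  refine h.of_eq fun p => ?_
  unfold term
  cases e p.2 <;> rfl

theorem primrec_AN (he : Primrec e) (hv : Primrec v) :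
    Primrec₂ fun (w : List Bool) (t : ℕ) => AN e v w t :=
  Primrec₂.mk (primrec_sum (α := List Bool × ℕ) (f := fun a i => term e v a.1 a.2 i)
    (g := fun a => a.2) (primrec_term he hv) Primrec.snd)

theorem primrec_FN (he : Primrec e) (hv : Primrec v) :
    Primrec fun a : List Bool × ℕ × ℕ => FN e v a.1 a.2.1 a.2.2 :=
  Primrec.nat_add.comp (Primrec.nat_mul.comp ((primrec_AN he hv).comp Primrec.fst
    (Primrec.fst.comp Primrec.snd)) (primrec_pow.comp (Primrec.const 2)
      (Primrec.list_length.comp Primrec.fst))) (Primrec.snd.comp Primrec.snd)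

theorem primrec_hterm (he : Primrec e) (hv : Primrec v) (hT : Primrec T) :
    Primrec fun a : (List Bool × ℕ × ℕ × ℕ) × ℕ =>
      hterm e v T a.1.1 a.1.2.1 a.1.2.2.1 a.1.2.2.2 a.2 := by
  let β : Type := ((List Bool × ℕ × ℕ × ℕ) × ℕ) × (ℕ × ℕ × ℕ × ℕ)
  have w1 : Primrec fun a : β => a.1.1.1 := Primrec.fst.comp (Primrec.fst.comp Primrec.fst)
  have w2 : Primrec fun a : β => a.1.1.2 := Primrec.snd.comp (Primrec.fst.comp Primrec.fst)
  have ht : Primrec fun a : β => a.1.1.2.1 := Primrec.fst.comp w2
  have hg : Primrec fun a : β => a.1.1.2.2.1 := Primrec.fst.comp (Primrec.snd.comp w2)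
  have hcc : Primrec fun a : β => a.1.1.2.2.2 := Primrec.snd.comp (Primrec.snd.comp w2)
  have hl : Primrec fun a : β => a.1.1.1.length := Primrec.list_length.comp w1
  have p1 : Primrec fun a : β => a.2.1 := Primrec.fst.comp Primrec.snd
  have p2 : Primrec fun a : β => a.2.2.1 := Primrec.fst.comp (Primrec.snd.comp Primrec.snd)
  have p3 : Primrec fun a : β => a.2.2.2.1 :=
    Primrec.fst.comp (Primrec.snd.comp (Primrec.snd.comp Primrec.snd))
  have p4 : Primrec fun a : β => a.2.2.2.2 :=
    Primrec.snd.comp (Primrec.snd.comp (Primrec.snd.comp Primrec.snd))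
  have hF : Primrec fun a : β => FN e v a.1.1.1 a.1.1.2.1 a.1.1.2.2.1 :=
    (primrec_FN he hv).comp (Primrec.pair w1 (Primrec.pair ht hg))
  have hpow : Primrec fun a : β => 2 ^ (a.1.1.2.1 + a.1.1.1.length - a.2.2.1) :=
    primrec_pow.comp (Primrec.const 2) (Primrec.nat_sub.comp (Primrec.nat_add.comp ht hl) p2)
  have hc : PrimrecPred fun a : β => a.2.1 = a.1.1.2.2.2 ∧ a.2.2.1 ≤ a.1.1.2.1 ∧
      a.2.2.2.1 * 2 ^ (a.1.1.2.1 + a.1.1.1.length - a.2.2.1) <
        FN e v a.1.1.1 a.1.1.2.1 a.1.1.2.2.1 := by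
    refine PrimrecPred.and (Primrec.eq.comp p1 hcc) (PrimrecPred.and (Primrec.nat_le.comp p2 ht)
      (Primrec.nat_lt.comp (Primrec.nat_mul.comp p3 hpow) hF))
  have h := Primrec.option_casesOn (hT.comp (Primrec.snd (α := List Bool × ℕ × ℕ × ℕ) (β := ℕ)))
    (Primrec.const 0) (Primrec.ite hc (Primrec.nat_div.comp
      (Primrec.nat_sub.comp (Primrec.nat_mul.comp p4 hpow) hF)
      (primrec_pow.comp (Primrec.const 2) (Primrec.nat_add.comp hl (Primrec.const 3))))
      (Primrec.const 0)).to₂
  refine h.of_eq fun p => ?_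
  unfold hterm
  cases T p.2 <;> rfl

theorem primrec_HN (he : Primrec e) (hv : Primrec v) (hT : Primrec T) :
    Primrec fun a : List Bool × ℕ × ℕ × ℕ => HN e v T a.1 a.2.1 a.2.2.1 a.2.2.2 :=
  primrec_sup (f := fun (a : List Bool × ℕ × ℕ × ℕ) i =>
    hterm e v T a.1 a.2.1 a.2.2.1 a.2.2.2 i) (g := fun a => a.2.1) (primrec_hterm he hv hT)
    (Primrec.fst.comp Primrec.snd)

theorem primrec_dbl : Primrec dbl :=
  Primrec.pair (Primrec.nat_mul.comp (Primrec.const 2) Primrec.fst) Primrec.snd

theorem primrec_step (he : Primrec e) (hv : Primrec v) (hT : Primrec T) :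
    Primrec fun a : List Bool × ℕ × (ℕ × List (ℕ × ℕ)) => step e v T a.1 a.2.1 a.2.2 := by
  let β : Type := (List Bool × ℕ × (ℕ × List (ℕ × ℕ))) × ((ℕ × ℕ) × List (ℕ × ℕ))
  have w : Primrec fun a : β => a.1.1 := Primrec.fst.comp Primrec.fst
  have t : Primrec fun a : β => a.1.2.1 := Primrec.fst.comp (Primrec.snd.comp Primrec.fst)
  have g : Primrec fun a : β => a.1.2.2.1 :=
    Primrec.fst.comp (Primrec.snd.comp (Primrec.snd.comp Primrec.fst))
  have f1 : Primrec fun a : β => a.2.1.1 := Primrec.fst.comp (Primrec.fst.comp Primrec.snd)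
  have f2 : Primrec fun a : β => a.2.1.2 := Primrec.snd.comp (Primrec.fst.comp Primrec.snd)
  have f : Primrec fun a : β => a.2.1 := Primrec.fst.comp Primrec.snd
  have L : Primrec fun a : β => a.2.2 := Primrec.snd.comp Primrec.snd
  have H : Primrec fun a : β => HN e v T a.1.1 a.1.2.1 a.1.2.2.1 a.2.1.2 :=
    (primrec_HN he hv hT).comp (Primrec.pair w (Primrec.pair t (Primrec.pair g f2)))
  have m : Primrec fun a : β => min a.2.1.1 (HN e v T a.1.1 a.1.2.1 a.1.2.2.1 a.2.1.2) :=
    Primrec.nat_min.comp f1 H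
  have two : ∀ {h : β → ℕ}, Primrec h → Primrec fun a => 2 * h a := fun h =>
    Primrec.nat_mul.comp (Primrec.const 2) h
  have mp : ∀ {h : β → List (ℕ × ℕ)}, Primrec h → Primrec fun a => (h a).map dbl := fun h =>
    Primrec.list_map h (Primrec₂.mk (primrec_dbl.comp Primrec.snd))
  have jj : Primrec fun a : β => JJ a.1.1 :=
    Primrec.succ.comp (primrec_pow.comp (Primrec.const 2)
      (Primrec.nat_add.comp (Primrec.list_length.comp w) (Primrec.const 2)))
  have rest : Primrec fun a : β => ((a.2.1.1 - min a.2.1.1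
      (HN e v T a.1.1 a.1.2.1 a.1.2.2.1 a.2.1.2), a.2.1.2) :: a.2.2 : List (ℕ × ℕ)) :=
    Primrec.list_cons.comp (Primrec.pair (Primrec.nat_sub.comp f1 m) f2) L
  have body : Primrec fun a : β =>
      if a.2.1.1 = 0 then (2 * a.1.2.2.1, a.2.2.map dbl) else
      if min a.2.1.1 (HN e v T a.1.1 a.1.2.1 a.1.2.2.1 a.2.1.2) = 0 then
        (2 * a.1.2.2.1, (a.2.1 :: a.2.2).map dbl) else
        if JJ a.1.1 ≤ (a.2.1 :: a.2.2).length then
          (2 * (a.1.2.2.1 + min a.2.1.1 (HN e v T a.1.1 a.1.2.1 a.1.2.2.1 a.2.1.2)),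
            ((a.2.1.1 - min a.2.1.1 (HN e v T a.1.1 a.1.2.1 a.1.2.2.1 a.2.1.2), a.2.1.2) ::
              a.2.2).map dbl)
        else (2 * a.1.2.2.1, ((min a.2.1.1 (HN e v T a.1.1 a.1.2.1 a.1.2.2.1 a.2.1.2),
          2 * a.1.2.1 + a.1.1.length + 5) ::
          (a.2.1.1 - min a.2.1.1 (HN e v T a.1.1 a.1.2.1 a.1.2.2.1 a.2.1.2), a.2.1.2) ::
            a.2.2).map dbl) := by
    refine Primrec.ite (Primrec.eq.comp f1 (Primrec.const 0)) (Primrec.pair (two g) (mp L)) ?_
    refine Primrec.ite (Primrec.eq.comp m (Primrec.const 0)) (Primrec.pair (two g)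
      (mp (Primrec.list_cons.comp f L))) ?_
    refine Primrec.ite (Primrec.nat_le.comp jj (Primrec.list_length.comp
      (Primrec.list_cons.comp f L))) (Primrec.pair (two (Primrec.nat_add.comp g m)) (mp rest)) ?_
    refine Primrec.pair (two g) (mp (Primrec.list_cons.comp (Primrec.pair m ?_) rest))
    exact Primrec.nat_add.comp (Primrec.nat_add.comp (two t) (Primrec.list_length.comp w))
      (Primrec.const 5)
  have h := Primrec.list_casesOn (f := fun a : List Bool × ℕ × (ℕ × List (ℕ × ℕ)) => a.2.2.2)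
    (Primrec.snd.comp (Primrec.snd.comp Primrec.snd))
    (g := fun a => (2 * a.2.2.1, ([] : List (ℕ × ℕ))))
    (Primrec.pair (Primrec.nat_mul.comp (Primrec.const 2)
      (Primrec.fst.comp (Primrec.snd.comp Primrec.snd))) (Primrec.const []))
    body.to₂
  refine h.of_eq fun a => ?_
  obtain ⟨w, t, g, L⟩ := a
  unfold step
  cases L <;> rfl

theorem primrec_run (he : Primrec e) (hv : Primrec v) (hT : Primrec T) :
    Primrec₂ fun (w : List Bool) (t : ℕ) => run e v T w t := by
  refine Primrec₂.mk ?_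
  have h : Primrec₂ fun (a : List Bool × ℕ) (p : ℕ × (ℕ × List (ℕ × ℕ))) =>
      step e v T a.1 p.1 p.2 :=
    Primrec₂.mk ((primrec_step he hv hT).comp (Primrec.pair (Primrec.fst.comp Primrec.fst)
      (Primrec.pair (Primrec.fst.comp Primrec.snd) (Primrec.snd.comp Primrec.snd))))
  have h0 : Primrec fun a : List Bool × ℕ => ((0, [(1, a.1.length + 5)]) : ℕ × List (ℕ × ℕ)) :=
    Primrec.pair (Primrec.const 0) (Primrec.list_cons.comp (Primrec.pair (Primrec.const 1)
      (Primrec.nat_add.comp (Primrec.list_length.comp Primrec.fst) (Primrec.const 5)))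
      (Primrec.const []))
  exact Primrec.nat_rec' Primrec.snd h0 h

end Prim2

/-- Whether the string `p` is in the domain of the component with code `w`. -/
def inDom (w p : List Bool) : Prop :=
  p ≠ [] ∧ 2 * (run e v T w (p.length - 1)).1 ≤ num p ∧ num p < (run e v T w p.length).1

instance (w p : List Bool) : Decidable (inDom e v T w p) := by
  unfold inDom
  infer_instance

/-- The guess coded at the beginning of `y`. -/
def guess (y : List Bool) : List Bool :=
  ((Encodable.decode (y.idxOf false) : Option (List Bool)).getD []) ++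
    y.take (y.idxOf false + 1)

/-- The machine. -/
def SM (x0 : List Bool) (y : List Bool) : Part (List Bool) :=
  ((if inDom e v T (guess y) (y.drop (y.idxOf false + 1)) then some x0 else none :
    Option (List Bool)) : Part (List Bool))

theorem partrec_SM {e : ℕ → Option (List Bool × List Bool)} {v : ℕ → Option (List Bool)}
    {T : ℕ → Option (ℕ × ℕ × ℕ × ℕ)} (he : Primrec e) (hv : Primrec v) (hT : Primrec T)
    (x0 : List Bool) : Partrec (SM e v T x0) := by
  have hi : Primrec fun y : List Bool => y.idxOf false :=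
    Primrec.list_idxOf.comp (Primrec.const false) Primrec.id
  have hg : Primrec guess := by
    refine Primrec.list_append.comp (Primrec.option_getD.comp (Primrec.decode.comp hi)
      (Primrec.const [])) (Primrec.list_take.comp (Primrec.succ.comp hi) Primrec.id)
  have hp : Primrec fun y : List Bool => y.drop (y.idxOf false + 1) :=
    Primrec.list_drop.comp (Primrec.succ.comp hi) Primrec.id
  have hr : Primrec₂ fun (w : List Bool) (t : ℕ) => (run e v T w t).1 :=
    Primrec.fst.comp (primrec_run he hv hT)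
  have hl : Primrec fun y : List Bool => (y.drop (y.idxOf false + 1)).length :=
    Primrec.list_length.comp hp
  have hn : Primrec fun y : List Bool => num (y.drop (y.idxOf false + 1)) :=
    primrec_num.comp hp
  have hc : PrimrecPred fun y : List Bool =>
      inDom e v T (guess y) (y.drop (y.idxOf false + 1)) := by
    unfold inDom
    refine PrimrecPred.and (PrimrecPred.not (Primrec.eq.comp hp (Primrec.const [])))
      (PrimrecPred.and (Primrec.nat_le.comp ?_ hn) (Primrec.nat_lt.comp hn (hr.comp hg hl)))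
    exact Primrec.nat_mul.comp (Primrec.const 2) (hr.comp hg (Primrec.pred.comp hl))
  exact Computable.ofOption (Primrec.ite hc (Primrec.const (some x0))
    (Primrec.const none)).to_comp

end Q217.CO
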